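import Pool.Agent.Helper20.CP.MAIN

/-!
# CP, part C4: ray, climb, hub, and back
-/

set_option autoImplicit false

open MeasureTheory ProbabilityTheory Filter Topology
open scoped ENNReal

namespace Pool.Agent.Helper20.CP.C4

open Pool.Agent.Helper20.CP Pool.Agent.Helper20.CP.MAIN

variable {X V : Type} {vt : X → V} {σ : Equiv.Perm X} {w : Sym2 X → ℝ × ℝ}

lemma rw_mono {k : ℕ} : ∀ {m m' : ℝ} {u v : V}, RedWalk vt σ w k m u v → m ≤ m' →
    RedWalk vt σ w k m' u v := by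
  induction k with
  | zero =>
    intro m m' u v h hm
    exact ⟨h.1, h.2.trans hm⟩
  | succ k ih =>
    intro m m' u v h hm
    obtain ⟨x, hx, h⟩ := h
    exact ⟨x, hx, ih h (by linarith)⟩

lemma rw_trans {k : ℕ} : ∀ {k' : ℕ} {m m' : ℝ} {u v z : V}, RedWalk vt σ w k m u v →
    RedWalk vt σ w k' m' v z → ∃ l, RedWalk vt σ w l (m + m') u z := by
  induction k with
  | zero =>
    intro k' m m' u v z h h'
    obtain ⟨rfl, hm⟩ := h
    exact ⟨k', rw_mono h' (by linarith)⟩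
  | succ k ih =>
    intro k' m m' u v z h h'
    obtain ⟨x, hx, h⟩ := h
    obtain ⟨l, hl⟩ := ih h h'
    refine ⟨l + 1, x, hx, rw_mono hl (by linarith)⟩

lemma rw_one (x : X) : RedWalk vt σ w 1 ((w s(x, σ x)).1) (vt x) (vt (σ x)) :=
  ⟨x, rfl, rfl, by simp⟩

lemma rw_symm (hσ : ∀ x, σ (σ x) = x) {k : ℕ} : ∀ {m : ℝ} {u v : V}, RedWalk vt σ w k m u v →
    ∃ l, RedWalk vt σ w l m v u := by
  induction k with
  | zero =>
    intro m u v h
    exact ⟨0, h.1.symm, h.2⟩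
  | succ k ih =>
    intro m u v h
    obtain ⟨x, rfl, h⟩ := h
    obtain ⟨l, hl⟩ := ih h
    have h1 : RedWalk vt σ w 1 ((w s(σ x, σ (σ x))).1) (vt (σ x)) (vt (σ (σ x))) := rw_one (σ x)
    rw [hσ] at h1
    have h2 : (w s(σ x, x)).1 = (w s(x, σ x)).1 := by rw [Sym2.eq_swap]
    rw [h2] at h1
    obtain ⟨l', hl'⟩ := rw_trans hl h1
    exact ⟨l', rw_mono hl' (by linarith)⟩

lemma rw_ray {nx : Equiv.Perm X} (hnx : ∀ x, vt (nx x) = vt x) {a1 : ℝ} (e : X) : ∀ i : ℕ,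
    (∀ l < i, (w s(ray nx σ e l, σ (ray nx σ e l))).1 ≤ a1) →
      ∃ l, RedWalk vt σ w l (i * a1) (vt e) (vt (ray nx σ e i)) := by
  intro i
  induction i with
  | zero =>
    intro _
    exact ⟨0, rfl, by simp⟩
  | succ i ih =>
    intro h
    obtain ⟨l, hl⟩ := ih fun l hl => h l (by omega)
    have h1 : RedWalk vt σ w 1 ((w s(ray nx σ e i, σ (ray nx σ e i))).1) (vt (ray nx σ e i))
      (vt (σ (ray nx σ e i))) := rw_one _
    have h2 : vt (ray nx σ e (i + 1)) = vt (σ (ray nx σ e i)) := by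
      unfold ray
      rw [Function.iterate_succ_apply', hnx]
    rw [h2]
    obtain ⟨l', hl'⟩ := rw_trans hl h1
    refine ⟨l', rw_mono hl' ?_⟩
    have := h i (by omega)
    push_cast
    linarith

lemma rw_climb {a2 : ℝ} {Wn : ℕ → Finset V} {J : ℕ} {v : V}
    (h : Climb vt σ w {p | p.1 ≤ a2} Wn J v) :
    ∃ z ∈ Wn J, ∃ l, RedWalk vt σ w l (J * a2) v z := by
  obtain ⟨π, h0, hW, -, hc⟩ := h
  refine ⟨π J, hW J le_rfl, ?_⟩
  have : ∀ i ≤ J, ∃ l, RedWalk vt σ w l (i * a2) v (π i) := by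
    intro i
    induction i with
    | zero =>
      intro _
      exact ⟨0, h0.symm, by simp⟩
    | succ i ih =>
      intro hi
      obtain ⟨l, hl⟩ := ih (by omega)
      obtain ⟨x, hx1, hx2, hx3⟩ := hc i (by omega)
      have h1 : RedWalk vt σ w 1 ((w s(x, σ x)).1) (vt x) (vt (σ x)) := rw_one _
      rw [hx1, hx2] at h1
      obtain ⟨l', hl'⟩ := rw_trans hl h1
      refine ⟨l', rw_mono hl' ?_⟩
      have : (w s(x, σ x)).1 ≤ a2 := hx3
      push_cast
      linarith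
  exact this J le_rfl

/-- failure at one end -/
def Fail (vt : X → V) (σ : Equiv.Perm X) (w : Sym2 X → ℝ × ℝ) (nx : Equiv.Perm X)
    (Wn : ℕ → Finset V) (R J : ℕ) (a1 a2 : ℝ) (e : X) : Prop :=
  (∀ i, 1 ≤ i → i ≤ R → vt (ray nx σ e i) ∉ Wn 0) ∨
  (∃ i < R + 1, vt (ray nx σ e i) ∈ Wn 0 ∧
    ¬ Climb vt σ w {p | p.1 ≤ a2} Wn J (vt (ray nx σ e i))) ∨
  (∃ l < R, a1 < (w s(ray nx σ e l, σ (ray nx σ e l))).1)

lemma up {nx : Equiv.Perm X} (hnx : ∀ x, vt (nx x) = vt x) {Wn : ℕ → Finset V} {R J : ℕ}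
    {a1 a2 : ℝ} (ha1 : 0 ≤ a1) {e : X} (h : ¬ Fail vt σ w nx Wn R J a1 a2 e) :
    ∃ z ∈ Wn J, ∃ l, RedWalk vt σ w l (R * a1 + J * a2) (vt e) z := by
  simp only [Fail, not_or, not_forall, not_exists, not_and, not_not, not_lt] at h
  obtain ⟨⟨i, hi1, hiR, hiW⟩, h2, h3⟩ := h
  obtain ⟨l, hl⟩ := rw_ray hnx e i fun l hl => h3 l (by omega)
  obtain ⟨z, hz, l', hl'⟩ := rw_climb (h2 i (by omega) hiW)
  obtain ⟨l'', hl''⟩ := rw_trans hl hl'
  refine ⟨z, hz, l'', rw_mono hl'' ?_⟩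
  have : (i : ℝ) * a1 ≤ R * a1 := mul_le_mul_of_nonneg_right (by exact_mod_cast hiR) ha1
  linarith

lemma walk (hσ : ∀ x, σ (σ x) = x) {nx : Equiv.Perm X} (hnx : ∀ x, vt (nx x) = vt x)
    {Wn : ℕ → Finset V} {R J : ℕ} {a1 a2 : ℝ} (ha1 : 0 ≤ a1) (ha2 : 0 ≤ a2) {e f : X}
    (he : ¬ Fail vt σ w nx Wn R J a1 a2 e) (hf : ¬ Fail vt σ w nx Wn R J a1 a2 f)
    (hub : ¬ ∃ u ∈ Wn J, ∃ v ∈ Wn J, u ≠ v ∧
      ∀ x, vt x = u → vt (σ x) = v → w s(x, σ x) ∉ {p : ℝ × ℝ | p.1 ≤ a2}) :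
    ∃ k, RedWalk vt σ w k (2 * R * a1 + (2 * J + 1) * a2) (vt e) (vt f) := by
  obtain ⟨z, hz, l, hl⟩ := up hnx ha1 he
  obtain ⟨z', hz', l', hl'⟩ := up hnx ha1 hf
  obtain ⟨l', hl'⟩ := rw_symm hσ hl'
  by_cases hzz : z = z'
  · subst hzz
    obtain ⟨k, hk⟩ := rw_trans hl hl'
    exact ⟨k, rw_mono hk (by nlinarith)⟩
  · push Not at hub
    obtain ⟨x, hx1, hx2, hx3⟩ := hub z hz z' hz' hzz
    have h1 : RedWalk vt σ w 1 ((w s(x, σ x)).1) (vt x) (vt (σ x)) := rw_one _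
    rw [hx1, hx2] at h1
    obtain ⟨k, hk⟩ := rw_trans hl h1
    obtain ⟨k', hk'⟩ := rw_trans hk hl'
    have h3 : (w s(x, σ x)).1 ≤ a2 := hx3
    exact ⟨k', rw_mono hk' (by linarith)⟩

lemma avg_sum {X : Type} [Fintype X] {ι : Type} (S : Finset ι) (F : ι → Equiv.Perm X → ℝ≥0∞) :
    avg (fun σ => ∑ i ∈ S, F i σ) = ∑ i ∈ S, avg (F i) := by
  unfold avg
  rw [Finset.sum_comm]
  simp only [div_eq_mul_inv, Finset.sum_mul]

lemma avg_const_le {X : Type} [Fintype X] (c : ℝ≥0∞) :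
    avg (fun _ : Equiv.Perm X => c) ≤ c := by
  have := avg_mul (X := X) c (fun _ => 1)
  simp only [mul_one] at this
  rw [this]
  calc c * avg (fun _ : Equiv.Perm X => 1) ≤ c * 1 :=
        mul_le_mul_right (avg_le_one fun _ _ => le_rfl) c
    _ = c := mul_one c

lemma WM_eval {X : Type} [Fintype X] [DecidableEq X] (ρ : Measure (ℝ × ℝ))
    [IsProbabilityMeasure ρ] (p : Sym2 X) (B : Set (ℝ × ℝ)) (hB : MeasurableSet B) :
    (WM ρ : Measure (Sym2 X → ℝ × ℝ)) {w | w p ∈ B} = ρ B :=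
  (measurePreserving_eval (fun _ : Sym2 X => ρ) p).measure_preimage hB.nullMeasurableSet

lemma ray_inj {X : Type} (nx σ : Equiv.Perm X) (i : ℕ) : Function.Injective
    fun e => ray nx σ e i := by
  have : (fun e => ray nx σ e i) = (fun x => nx (σ x))^[i] := rfl
  rw [this]
  exact Function.Injective.iterate (nx.injective.comp σ.injective) i

open Classical in
/-- the bound for one end, for a fixed pairing -/
lemma fail_le {X V : Type} [Fintype X] [DecidableEq X] [Fintype V] (vt : X → V)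
    (σ nx : Equiv.Perm X) (fs : V → X) (hfs : ∀ v, vt (fs v) = v) (ρ : Measure (ℝ × ℝ))
    [IsProbabilityMeasure ρ] (a1 a2 : ℝ) (R J : ℕ) (Wn : ℕ → Finset V) (eb : ℝ≥0∞)
    (heb : ρ {p | a1 < p.1} ≤ eb) :
    ∑ u : V, (WM ρ : Measure (Sym2 X → ℝ × ℝ)) {w | Fail vt σ w nx Wn R J a1 a2 (fs u)} ≤
      (∑ u : V, ind (∀ i, 1 ≤ i → i ≤ R → vt (ray nx σ (fs u) i) ∉ Wn 0)) +
      ((R : ℝ≥0∞) + 1) * (∑ v ∈ Wn 0, (dg vt v : ℝ≥0∞) *
        (WM ρ : Measure (Sym2 X → ℝ × ℝ)) {w | ¬ Climb vt σ w {p | p.1 ≤ a2} Wn J v}) +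
      (Fintype.card V : ℝ≥0∞) * (R * eb) := by
  set c : V → ℝ≥0∞ := fun v => (WM ρ : Measure (Sym2 X → ℝ × ℝ))
    {w | ¬ Climb vt σ w {p | p.1 ≤ a2} Wn J v} with hc
  set g : X → ℝ≥0∞ := fun x => if vt x ∈ Wn 0 then c (vt x) else 0 with hg
  have h1 : ∀ u : V, (WM ρ : Measure (Sym2 X → ℝ × ℝ))
      {w | Fail vt σ w nx Wn R J a1 a2 (fs u)} ≤
      ind (∀ i, 1 ≤ i → i ≤ R → vt (ray nx σ (fs u) i) ∉ Wn 0) +
      (∑ i ∈ Finset.range (R + 1), g (ray nx σ (fs u) i)) + R * eb := by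
    intro u
    have hsub : {w : Sym2 X → ℝ × ℝ | Fail vt σ w nx Wn R J a1 a2 (fs u)} ⊆
        ({w | ∀ i, 1 ≤ i → i ≤ R → vt (ray nx σ (fs u) i) ∉ Wn 0} ∪
        (⋃ i ∈ Finset.range (R + 1), {w | vt (ray nx σ (fs u) i) ∈ Wn 0 ∧
          ¬ Climb vt σ w {p | p.1 ≤ a2} Wn J (vt (ray nx σ (fs u) i))})) ∪
        (⋃ l ∈ Finset.range R, {w | w s(ray nx σ (fs u) l, σ (ray nx σ (fs u) l)) ∈
          {p : ℝ × ℝ | a1 < p.1}}) := by
      rintro w (h | ⟨i, hi, h⟩ | ⟨l, hl, h⟩)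
      · exact Or.inl (Or.inl h)
      · exact Or.inl (Or.inr (Set.mem_biUnion (Finset.mem_coe.mpr (Finset.mem_range.mpr hi)) h))
      · exact Or.inr (Set.mem_biUnion (Finset.mem_coe.mpr (Finset.mem_range.mpr hl)) h)
    refine (measure_mono hsub).trans ((measure_union_le _ _).trans
      (add_le_add ((measure_union_le _ _).trans (add_le_add ?_ ?_)) ?_))
    · by_cases h : ∀ i, 1 ≤ i → i ≤ R → vt (ray nx σ (fs u) i) ∉ Wn 0
      · rw [ind_true h]
        unfold WM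
        exact prob_le_one
      · have : {w : Sym2 X → ℝ × ℝ | ∀ i, 1 ≤ i → i ≤ R → vt (ray nx σ (fs u) i) ∉ Wn 0} = ∅ := by
          ext w
          simp only [Set.mem_ofPred_eq, Set.mem_empty_iff_false, iff_false]
          exact h
        rw [this, measure_empty]
        exact bot_le
    · refine (measure_biUnion_finset_le _ _).trans (Finset.sum_le_sum fun i _ => ?_)
      by_cases h : vt (ray nx σ (fs u) i) ∈ Wn 0
      · simp only [hg, h, if_true, hc, true_and]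
        exact le_rfl
      · simp [hg, h]
    · refine (measure_biUnion_finset_le _ _).trans ?_
      calc _ ≤ ∑ l ∈ Finset.range R, eb := by
            refine Finset.sum_le_sum fun l _ => ?_
            rw [WM_eval ρ _ _ (measurableSet_lt measurable_const measurable_fst)]
            exact heb
        _ = R * eb := by simp
  have h2 : ∀ i, ∑ u : V, g (ray nx σ (fs u) i) ≤ ∑ v ∈ Wn 0, (dg vt v : ℝ≥0∞) * c v := by
    intro i
    have hinj : Function.Injective fun u => ray nx σ (fs u) i := by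
      intro u v h
      have := ray_inj nx σ i h
      rw [← hfs u, ← hfs v, this]
    calc ∑ u : V, g (ray nx σ (fs u) i) = ∑ x ∈ Finset.univ.image (fun u => ray nx σ (fs u) i),
          g x := (Finset.sum_image fun u _ v _ h => hinj h).symm
      _ ≤ ∑ x : X, g x := Finset.sum_le_sum_of_subset (Finset.subset_univ _)
      _ = ∑ v ∈ Wn 0, (dg vt v : ℝ≥0∞) * c v := by
          simp only [hg]
          rw [← Finset.sum_filter]
          rw [← Finset.sum_fiberwise_of_maps_to (t := Wn 0) (g := vt) (fun x hx => by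
            simpa using hx)]
          refine Finset.sum_congr rfl fun v hv => ?_
          rw [Finset.filter_filter]
          rw [Finset.sum_congr rfl (g := fun _ => c v) (fun x hx => by
            rw [(Finset.mem_filter.mp hx).2.2])]
          rw [Finset.sum_const, nsmul_eq_mul]
          congr 2
          unfold dg
          congr 1
          ext x
          simp only [Finset.mem_filter, Finset.mem_univ, true_and]
          constructor
          · exact fun h => h.2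
          · intro h
            exact ⟨h ▸ hv, h⟩
  calc _ ≤ ∑ u : V, (ind (∀ i, 1 ≤ i → i ≤ R → vt (ray nx σ (fs u) i) ∉ Wn 0) +
      (∑ i ∈ Finset.range (R + 1), g (ray nx σ (fs u) i)) + R * eb) :=
        Finset.sum_le_sum fun u _ => h1 u
    _ = (∑ u : V, ind (∀ i, 1 ≤ i → i ≤ R → vt (ray nx σ (fs u) i) ∉ Wn 0)) +
      (∑ i ∈ Finset.range (R + 1), ∑ u : V, g (ray nx σ (fs u) i)) +
        (Fintype.card V : ℝ≥0∞) * (R * eb) := by
        rw [Finset.sum_add_distrib, Finset.sum_add_distrib, Finset.sum_comm (s := Finset.univ)]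
        simp
    _ ≤ _ := by
        gcongr
        calc ∑ i ∈ Finset.range (R + 1), ∑ u : V, g (ray nx σ (fs u) i) ≤
              ∑ i ∈ Finset.range (R + 1), ∑ v ∈ Wn 0, (dg vt v : ℝ≥0∞) * c v :=
              Finset.sum_le_sum fun i _ => h2 i
          _ = _ := by
            rw [Finset.sum_const, Finset.card_range, nsmul_eq_mul]
            push_cast
            rfl

theorem main : S_C := by
  classical
  intro X V _ _ _ vt nx fs hnx hfs ρ _ a1 a2 ha1 ha2 R J Wn rb db hb eb hrb hdb hhb heb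
  set n : ℝ≥0∞ := (Fintype.card V : ℝ≥0∞) with hn
  rcases isEmpty_or_nonempty V with hV | hV
  · simp only [Finset.univ_eq_empty, Finset.sum_empty, ENNReal.zero_div]
    exact (avg_const_le 0).trans bot_le
  have hn0 : n ≠ 0 := by
    rw [hn]
    exact_mod_cast Fintype.card_ne_zero
  have hnt : n ≠ ⊤ := ENNReal.natCast_ne_top _
  set H : Equiv.Perm X → ℝ≥0∞ := fun σ => (WM ρ : Measure (Sym2 X → ℝ × ℝ))
    {w | ∃ u ∈ Wn J, ∃ v ∈ Wn J, u ≠ v ∧
    ∀ x, vt x = u → vt (σ x) = v → w s(x, σ x) ∉ {p : ℝ × ℝ | p.1 ≤ a2}} with hH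
  set G : Equiv.Perm X → ℝ≥0∞ := fun σ =>
    (∑ u : V, ind (∀ i, 1 ≤ i → i ≤ R → vt (ray nx σ (fs u) i) ∉ Wn 0)) +
      ((R : ℝ≥0∞) + 1) * (∑ v ∈ Wn 0, (dg vt v : ℝ≥0∞) *
        (WM ρ : Measure (Sym2 X → ℝ × ℝ)) {w | ¬ Climb vt σ w {p | p.1 ≤ a2} Wn J v}) +
      n * (R * eb) with hG
  have hpt : ∀ σ ∈ pairings X, (∑ u : V, ∑ v : V, (WM ρ : Measure (Sym2 X → ℝ × ℝ))
      {w | ¬ ∃ k, RedWalk vt σ w k (2 * R * a1 + (2 * J + 1) * a2) u v}) / (n * n) ≤
      (G σ / n + G σ / n) + H σ := by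
    intro σ hσ
    have hinv := invol hσ
    have hGσ := fail_le vt σ nx fs hfs ρ a1 a2 R J Wn eb heb
    have h1 : ∀ u v : V, (WM ρ : Measure (Sym2 X → ℝ × ℝ))
        {w | ¬ ∃ k, RedWalk vt σ w k (2 * R * a1 + (2 * J + 1) * a2) u v} ≤
        (WM ρ : Measure (Sym2 X → ℝ × ℝ)) {w | Fail vt σ w nx Wn R J a1 a2 (fs u)} +
        (WM ρ : Measure (Sym2 X → ℝ × ℝ)) {w | Fail vt σ w nx Wn R J a1 a2 (fs v)} + H σ := by
      intro u v
      refine (measure_mono ?_).trans ((measure_union_le _ _).trans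
        (add_le_add (measure_union_le _ _) le_rfl))
      intro w hw
      by_contra hcon
      simp only [Set.mem_union, Set.mem_ofPred_eq, not_or] at hcon
      obtain ⟨⟨h1, h2⟩, h3⟩ := hcon
      apply hw
      have := walk hinv hnx ha1 ha2 h1 h2 h3
      rwa [hfs, hfs] at this
    have h2 : (∑ u : V, ∑ v : V, (WM ρ : Measure (Sym2 X → ℝ × ℝ))
        {w | ¬ ∃ k, RedWalk vt σ w k (2 * R * a1 + (2 * J + 1) * a2) u v}) ≤
        n * G σ + n * G σ + n * n * H σ := by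
      calc _ ≤ ∑ u : V, ∑ v : V,
          ((WM ρ : Measure (Sym2 X → ℝ × ℝ)) {w | Fail vt σ w nx Wn R J a1 a2 (fs u)} +
          (WM ρ : Measure (Sym2 X → ℝ × ℝ)) {w | Fail vt σ w nx Wn R J a1 a2 (fs v)} + H σ) :=
            Finset.sum_le_sum fun u _ => Finset.sum_le_sum fun v _ => h1 u v
        _ = n * (∑ u : V, (WM ρ : Measure (Sym2 X → ℝ × ℝ))
              {w | Fail vt σ w nx Wn R J a1 a2 (fs u)}) +
            n * (∑ u : V, (WM ρ : Measure (Sym2 X → ℝ × ℝ))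
              {w | Fail vt σ w nx Wn R J a1 a2 (fs u)}) + n * n * H σ := by
            simp only [Finset.sum_add_distrib, Finset.sum_const, Finset.card_univ, nsmul_eq_mul,
              ← Finset.mul_sum, ← hn]
            rw [mul_assoc]
        _ ≤ _ := by gcongr
    calc _ ≤ (n * G σ + n * G σ + n * n * H σ) / (n * n) := ENNReal.div_le_div_right h2 _
      _ = _ := by
          rw [ENNReal.add_div, ENNReal.add_div, ENNReal.mul_div_mul_left _ _ hn0 hnt]
          congr 1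
          rw [mul_comm (n * n) (H σ), mul_div_assoc,
            ENNReal.div_self (mul_ne_zero hn0 hn0) (ENNReal.mul_ne_top hnt hnt), mul_one]
  refine (avg_mono hpt).trans ?_
  rw [avg_add, avg_add, avg_div]
  have hGavg : avg G ≤ n * rb + ((R : ℝ≥0∞) + 1) * ((∑ v ∈ Wn 0, (dg vt v : ℝ≥0∞)) * db) +
      n * (R * eb) := by
    rw [hG, avg_add, avg_add, avg_mul, avg_sum, avg_sum]
    refine add_le_add (add_le_add ?_ ?_) (avg_const_le _)
    · calc _ ≤ ∑ u : V, rb := Finset.sum_le_sum fun u _ => hrb u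
        _ = n * rb := by simp [hn]
    · refine mul_le_mul_right ?_ _
      rw [Finset.sum_mul]
      refine Finset.sum_le_sum fun v hv => ?_
      rw [avg_mul]
      exact mul_le_mul_right (hdb v hv) _
  have hdiv : avg G / n ≤ rb + R * eb + (R + 1) * ((∑ v ∈ Wn 0, (dg vt v : ℝ≥0∞)) / n) * db := by
    refine (ENNReal.div_le_div_right hGavg _).trans (le_of_eq ?_)
    rw [ENNReal.add_div, ENNReal.add_div, mul_comm n rb, mul_comm n (R * eb), mul_div_assoc rb,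
      mul_div_assoc (R * eb), ENNReal.div_self hn0 hnt, mul_one, mul_one]
    simp only [div_eq_mul_inv]
    ring
  calc avg G / n + avg G / n + avg H ≤
      (rb + R * eb + (R + 1) * ((∑ v ∈ Wn 0, (dg vt v : ℝ≥0∞)) / n) * db) +
      (rb + R * eb + (R + 1) * ((∑ v ∈ Wn 0, (dg vt v : ℝ≥0∞)) / n) * db) + hb :=
        add_le_add (add_le_add hdiv hdiv) hhb
    _ = _ := by rw [two_mul]

end Pool.Agent.Helper20.CP.C4
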