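import Pool.Agent.Helper20.CP.MAIN

/-!
# CP, part CLIM: the red distances on regular degree sequences
-/

set_option autoImplicit false

open MeasureTheory ProbabilityTheory Filter Topology
open scoped ENNReal

namespace Pool.Agent.Helper20.CP.CLIM

open Pool.Agent.Helper20.CP Pool.Agent.Helper20.CP.MAIN

lemma rw_mono {X V : Type} {vt : X → V} {σ : Equiv.Perm X} {w : Sym2 X → ℝ × ℝ} {k : ℕ} :
    ∀ {m m' : ℝ} {u v : V}, RedWalk vt σ w k m u v → m ≤ m' → RedWalk vt σ w k m' u v := by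
  induction k with
  | zero =>
    intro m m' u v h hm
    exact ⟨h.1, h.2.trans hm⟩
  | succ k ih =>
    intro m m' u v h hm
    obtain ⟨x, hx, h⟩ := h
    exact ⟨x, hx, ih h (by linarith)⟩

/-- tails of a probability measure -/
lemma exists_tail (ρ : Measure (ℝ × ℝ)) [IsProbabilityMeasure ρ] {ε : ℝ} (hε : 0 < ε) :
    ∃ a1 : ℝ, 0 ≤ a1 ∧ ρ {p | a1 < p.1} ≤ ENNReal.ofReal ε := by
  have hanti : Antitone fun m : ℕ => {p : ℝ × ℝ | (m : ℝ) < p.1} := by
    intro m m' h p hp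
    have : (m : ℝ) ≤ m' := by exact_mod_cast h
    exact lt_of_le_of_lt this hp
  have hlim := tendsto_measure_iInter_atTop (μ := ρ) (s := fun m : ℕ => {p : ℝ × ℝ | (m : ℝ) < p.1})
    (fun m => (measurableSet_lt measurable_const measurable_fst).nullMeasurableSet) hanti
    ⟨0, measure_ne_top _ _⟩
  have hempty : (⋂ m : ℕ, {p : ℝ × ℝ | (m : ℝ) < p.1}) = ∅ := by
    ext p
    simp only [Set.mem_iInter, Set.mem_ofPred_eq, Set.mem_empty_iff_false, iff_false, not_forall,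
      not_lt]
    exact exists_nat_ge p.1
  rw [hempty, measure_empty] at hlim
  have hpos : (0 : ℝ≥0∞) < ENNReal.ofReal ε := ENNReal.ofReal_pos.mpr hε
  obtain ⟨m, hm⟩ := (hlim.eventually (gt_mem_nhds hpos)).exists
  exact ⟨m, by positivity, hm.le⟩

theorem main (hC : S_C) (h1 : S_CN1) (h2 : S_CN2) (h3 : S_CN3) : S_CLIM := by
  classical
  intro a c0 εr ha0 ha1 hc0 hεr
  obtain ⟨α, κ, η, hα2, hα1, hαa, hκ, haκ, hη, hlen⟩ := h3 a c0 εr ha0 ha1 hc0 hεr
  refine ⟨α, κ, by linarith, hαa, hκ, ?_⟩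
  intro ρ _ hρ A c2 ε hA hc2 hε
  set Ch : Set (ℝ × ℝ) := {p | p.1 ≤ c0 + η} with hCh
  have hChm : MeasurableSet Ch := measurableSet_le measurable_fst measurable_const
  set p : ℝ := (ρ Ch).toReal with hp
  have hp0 : 0 < p := ENNReal.toReal_pos (hρ η hη) (measure_ne_top _ _)
  have hp1 : p ≤ 1 := by
    have : ρ Ch ≤ 1 := prob_le_one
    exact ENNReal.toReal_le_of_le_ofReal zero_le_one (by simpa using this)
  have hpρ : ENNReal.ofReal p ≤ ρ Ch := by
    rw [hp, ENNReal.ofReal_toReal (measure_ne_top _ _)]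
  obtain ⟨K1, hK1⟩ := h1 a α κ p A c2 ha0 ha1 hα2 hαa hκ haκ hp0 hp1 hA hc2
  obtain ⟨K2, hK2⟩ := h2 a α κ p A c2 ha0 ha1 hα2 hαa hκ haκ hp0 hp1 hA hc2 (ε / 7) (by positivity)
  refine ⟨max (max K1 K2) (Real.exp 1), fun K hK => ?_⟩
  have hKK1 : K1 ≤ K := ((le_max_left _ _).trans (le_max_left _ _)).trans hK
  have hKK2 : K2 ≤ K := ((le_max_right _ _).trans (le_max_left _ _)).trans hK
  have hKe : Real.exp 1 ≤ K := (le_max_right _ _).trans hK
  have hKpos : 0 < K := (Real.exp_pos 1).trans_le hKe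
  obtain ⟨N1, hN1⟩ := hK1 K hKK1
  obtain ⟨hε7, N2, hN2⟩ := hK2 K hKK2
  set R : ℕ := ⌈K ^ κ⌉₊ with hR
  have hRpos : 0 < R := Nat.ceil_pos.mpr (Real.rpow_pos_of_pos hKpos _)
  have hRr : (0 : ℝ) < R := by exact_mod_cast hRpos
  obtain ⟨a1, ha10, ha1e⟩ := exists_tail ρ (ε := ε / (7 * R)) (by positivity)
  obtain ⟨N3, hN3⟩ := hlen K a1 R hKe ha10
  refine ⟨max N1 (max N2 (max N3 1)), ?_⟩
  intro n hn X V _ _ _ vt nx fs hnx hvnx hfs hcard hreg
  have hn1 : N1 ≤ n := (le_max_left _ _).trans hn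
  have hn2 : N2 ≤ n := ((le_max_left _ _).trans (le_max_right _ _)).trans hn
  have hn3 : N3 ≤ n := ((le_max_left _ _).trans ((le_max_right _ _).trans (le_max_right _ _))).trans hn
  have hn4 : 1 ≤ n := ((le_max_right _ _).trans ((le_max_right _ _).trans (le_max_right _ _))).trans hn
  obtain ⟨hray, hhub⟩ := hN2 n hn2 X V vt hcard hreg
  have hclimb := hN1 n hn1 X V vt hcard hreg ρ Ch hChm hpρ
  have hhub := hhub ρ Ch hChm hpρ
  have hc := hC X V vt nx fs hvnx hfs ρ a1 (c0 + η) ha10 (by positivity) R (Jn α κ K n)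
    (Win (dg vt) α κ K) (ENNReal.ofReal (ε / 7)) (ENNReal.ofReal (K ^ (-(2 * κ))))
    (ENNReal.ofReal (ε / 7)) (ENNReal.ofReal (ε / (7 * R)))
    (fun u => hray nx hnx hvnx (fs u)) hclimb hhub ha1e
  have hmon : avg (fun σ : Equiv.Perm X => (∑ u : V, ∑ v : V,
        WM ρ {w | ¬ ∃ k, RedWalk vt σ w k (2 * (1 + εr) * c0 * LL a n) u v}) /
          ((Fintype.card V : ℝ≥0∞) * Fintype.card V)) ≤
      avg (fun σ : Equiv.Perm X => (∑ u : V, ∑ v : V,
        WM ρ {w | ¬ ∃ k, RedWalk vt σ w k (2 * R * a1 + (2 * (Jn α κ K n : ℕ) + 1) * (c0 + η)) u v}) /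
          ((Fintype.card V : ℝ≥0∞) * Fintype.card V)) := by
    refine avg_mono fun σ _ => ENNReal.div_le_div_right (Finset.sum_le_sum fun u _ =>
      Finset.sum_le_sum fun v _ => measure_mono ?_) _
    intro w hw hcon
    obtain ⟨k, hk⟩ := hcon
    exact hw ⟨k, rw_mono hk (hN3 n hn3)⟩
  refine hmon.trans (hc.trans ?_)
  -- the sum of the bounds
  have hsum : (∑ v ∈ Win (dg vt) α κ K 0, (dg vt v : ℝ≥0∞)) / Fintype.card V ≤
      ENNReal.ofReal A := by
    have hVpos : (0 : ℝ) < Fintype.card V := by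
      rw [hcard]; exact_mod_cast hn4
    have e1 : (∑ v ∈ Win (dg vt) α κ K 0, (dg vt v : ℝ≥0∞)) ≤
        ENNReal.ofReal (A * Fintype.card V) := by
      calc (∑ v ∈ Win (dg vt) α κ K 0, (dg vt v : ℝ≥0∞)) ≤ ∑ v : V, (dg vt v : ℝ≥0∞) :=
            Finset.sum_le_sum_of_subset (Finset.subset_univ _)
        _ = ENNReal.ofReal (∑ v : V, (dg vt v : ℝ)) := by
            rw [ENNReal.ofReal_sum_of_nonneg fun v _ => by positivity]
            refine Finset.sum_congr rfl fun v _ => ?_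
            rw [ENNReal.ofReal_natCast]
        _ ≤ _ := ENNReal.ofReal_le_ofReal hreg.sum
    refine (ENNReal.div_le_div_right e1 _).trans (le_of_eq ?_)
    rw [← ENNReal.ofReal_natCast (Fintype.card V), ← ENNReal.ofReal_div_of_pos hVpos,
      mul_div_assoc, div_self hVpos.ne', mul_one]
  have hReb : (R : ℝ≥0∞) * ENNReal.ofReal (ε / (7 * R)) = ENNReal.ofReal (ε / 7) := by
    rw [← ENNReal.ofReal_natCast, ← ENNReal.ofReal_mul (by positivity)]
    congr 1
    field_simp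
  have hthird : ((R : ℝ≥0∞) + 1) * ((∑ v ∈ Win (dg vt) α κ K 0, (dg vt v : ℝ≥0∞)) /
      Fintype.card V) * ENNReal.ofReal (K ^ (-(2 * κ))) ≤ ENNReal.ofReal (ε / 7) := by
    calc _ ≤ ((R : ℝ≥0∞) + 1) * ENNReal.ofReal A * ENNReal.ofReal (K ^ (-(2 * κ))) := by gcongr
      _ = ENNReal.ofReal (((R : ℝ) + 1) * A * K ^ (-(2 * κ))) := by
          rw [ENNReal.ofReal_mul (by positivity), ENNReal.ofReal_mul (by positivity),
            ENNReal.ofReal_add (by positivity) zero_le_one, ENNReal.ofReal_natCast,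
            ENNReal.ofReal_one]
      _ ≤ _ := ENNReal.ofReal_le_ofReal hε7
  rw [hReb]
  calc 2 * (ENNReal.ofReal (ε / 7) + ENNReal.ofReal (ε / 7) + ((R : ℝ≥0∞) + 1) *
        ((∑ v ∈ Win (dg vt) α κ K 0, (dg vt v : ℝ≥0∞)) / Fintype.card V) *
          ENNReal.ofReal (K ^ (-(2 * κ)))) + ENNReal.ofReal (ε / 7) ≤
      2 * (ENNReal.ofReal (ε / 7) + ENNReal.ofReal (ε / 7) + ENNReal.ofReal (ε / 7)) +
        ENNReal.ofReal (ε / 7) := by gcongr
    _ = ENNReal.ofReal ε := by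
        have h7 : 0 ≤ ε / 7 := by positivity
        rw [← ENNReal.ofReal_add h7 h7, ← ENNReal.ofReal_add (by linarith) h7,
          show (2 : ℝ≥0∞) = ENNReal.ofReal 2 by simp, ← ENNReal.ofReal_mul (by norm_num),
          ← ENNReal.ofReal_add (by linarith) h7]
        congr 1
        ring

end Pool.Agent.Helper20.CP.CLIM
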