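import Pool.Agent.Helper20.CP.MAIN

/-!
# CP, part ONE: `Pr` is a probability
-/

set_option autoImplicit false

open MeasureTheory ProbabilityTheory Filter Topology
open scoped ENNReal

namespace Pool.Agent.Helper20.CP.ONE

open Pool.Agent.Helper20.CP Pool.Agent.Helper20.CP.MAIN

lemma even_sum {n : ℕ} (hn : 1 ≤ n) (d : Fin n → ℕ) : Even (∑ v, fixDeg d v) := by
  by_cases h : Odd (∑ u, d u)
  · have h1 : fixDeg d = fun v => d v + if v = (⟨n - 1, by omega⟩ : Fin n) then 1 else 0 := by
      funext v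
      unfold fixDeg
      have : (v.val + 1 = n) ↔ v = (⟨n - 1, by omega⟩ : Fin n) := by
        rw [Fin.ext_iff]
        simp only
        omega
      by_cases hv : v = (⟨n - 1, by omega⟩ : Fin n)
      · rw [if_pos ⟨this.mpr hv, h⟩, if_pos hv]
      · rw [if_neg (fun hh => hv (this.mp hh.1)), if_neg hv, add_zero]
    rw [h1, Finset.sum_add_distrib]
    simp only [Finset.sum_ite_eq', Finset.mem_univ, if_true]
    exact h.add_one
  · have h1 : fixDeg d = d := by
      funext v
      unfold fixDeg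
      rw [if_neg (fun hh => h hh.2)]
    rw [h1]
    exact Nat.not_odd_iff_even.mp h

theorem main (hcard : S_CARD) : S_ONE := by
  intro ν _ ρ _ n hn
  unfold Pr
  have hn0 : (n : ℝ≥0∞) ≠ 0 := by
    have : n ≠ 0 := by omega
    exact_mod_cast this
  have hnt : (n : ℝ≥0∞) ≠ ⊤ := ENNReal.natCast_ne_top n
  have h1 : ∀ d : Fin n → ℕ, avg (fun σ : Equiv.Perm (HE (fixDeg d)) =>
      (∑ r : Fin n, ∑ b : Fin n, (WM ρ : Measure (Sym2 (HE (fixDeg d)) → ℝ × ℝ))
        {w | True}) / ((n : ℝ≥0∞) * n)) = 1 := by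
    intro d
    have h2 : (WM ρ : Measure (Sym2 (HE (fixDeg d)) → ℝ × ℝ)) {w | True} = 1 := by
      have : {w : Sym2 (HE (fixDeg d)) → ℝ × ℝ | True} = Set.univ := by ext; simp
      rw [this]
      unfold WM
      exact measure_univ
    rw [h2]
    have h3 : (∑ r : Fin n, ∑ b : Fin n, (1 : ℝ≥0∞)) / ((n : ℝ≥0∞) * n) = 1 := by
      simp only [Finset.sum_const, Finset.card_univ, Fintype.card_fin, nsmul_eq_mul, mul_one]
      exact ENNReal.div_self (mul_ne_zero hn0 hn0) (ENNReal.mul_ne_top hnt hnt)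
    rw [h3]
    unfold avg
    rw [Finset.sum_const, nsmul_eq_mul, mul_one]
    obtain ⟨hc1, -, hc3⟩ := hcard (HE (fixDeg d)) Finset.univ
    have hev : Even (Finset.univ : Finset (HE (fixDeg d))).card := by
      rw [Finset.card_univ, Fintype.card_sigma]
      simpa using even_sum hn d
    have hpos : 0 < (pairings (HE (fixDeg d))).card := by
      rw [← hc3, hc1 hev]
      exact Nat.doubleFactorial_pos _
    refine ENNReal.div_self ?_ (ENNReal.natCast_ne_top _)
    exact_mod_cast hpos.ne'
  rw [lintegral_congr (g := fun _ => 1) h1, lintegral_const, measure_univ, mul_one]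

end Pool.Agent.Helper20.CP.ONE
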