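import Pool.Agent.Helper20.CP.MAIN
import Pool.Agent.Helper20.CP.C4
import Pool.Agent.Helper20.CP.CLIM
import Pool.Agent.Helper20.CP.ONE
import Pool.Agent.Helper74.CP.A1
import Pool.Agent.Helper74.CP.RAY
import Pool.Agent.Helper29.CP.B3
import Pool.Agent.Helper29.CP.CLIMB
import Pool.Agent.Helper29.CP.HUB
import Pool.Agent.Helper3.CP.B
import Pool.Agent.Helper3.CP.BNUM
import Pool.Agent.Helper71.CP.STEP
import Pool.Agent.Helper71.CP.M2
import Pool.Agent.Helper71.CP.M4
import Pool.Agent.Helper92.CP.FM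
import Pool.Agent.Helper92.CP.CL
import Pool.Agent.Helper36.CP.LEV
import Pool.Agent.Helper36.CP.CN1
import Pool.Agent.Helper6.CP.CN2
import Pool.Agent.Helper6.CP.M3
import Pool.Agent.Helper6.CP.MARK
import Pool.Agent.Helper10.CP.ESS
import Pool.Agent.Helper39.CP.EX
import Pool.Agent.Helper39.CP.REGB
import Pool.Agent.Helper39.CP.REGC

/-!
# CP: all parts together
-/

set_option autoImplicit false

namespace Pool.Agent.Helper20.CP.All

open Pool.Agent.Helper20.CP

theorem m4 : S_M4 := Pool.Agent.Helper71.CP.mainM4 Pool.Agent.Helper6.CP.M3.main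

theorem fm : S_FM := Pool.Agent.Helper92.CP.mainFM m4

theorem b3 : S_B := Pool.Agent.Helper29.CP.B3.main (Pool.Agent.Helper3.CP.mainBBAD fm)
  (Pool.Agent.Helper3.CP.mainBGOOD fm)

theorem climb : S_CLIMB := Pool.Agent.Helper29.CP.CLIMB.main (Pool.Agent.Helper92.CP.mainCL m4)

theorem hub : S_HUB := Pool.Agent.Helper29.CP.HUB.main m4

theorem cn2 : S_CN2 := Pool.Agent.Helper6.CP.CN2.main Pool.Agent.Helper74.CP.RAY.main hub
  Pool.Agent.Helper36.CP.lev

theorem clim : S_CLIM := CLIM.main C4.main (Pool.Agent.Helper36.CP.cn1 climb) cn2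
  Pool.Agent.Helper36.CP.cn3

theorem main_thm : S_MAIN := MAIN.main Pool.Agent.Helper74.CP.A1.main
  Pool.Agent.Helper6.CP.MARK.main b3 Pool.Agent.Helper3.CP.mainBNUM
  Pool.Agent.Helper39.CP.REGB.main clim (Pool.Agent.Helper39.CP.REGC.main Pool.Agent.Helper36.CP.lev)

theorem ess_thm : S_ESS := Pool.Agent.Helper10.CP.ESS.main

theorem one_thm : S_ONE := ONE.main Pool.Agent.Helper71.CP.mainCARD

theorem ex_thm : S_EX := Pool.Agent.Helper39.CP.EX.main

end Pool.Agent.Helper20.CP.All
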