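import Mathlib

/-!
# CP: two-colour competition on the configuration model (MP_884359_pr). Definitions

`X` is the set of half-edges, `V` the set of vertices, the half-edge `x` is attached to the vertex
`vt x`. A pairing `σ` joins the half-edges `x` and `σ x` to an edge; red needs the time
`(w s(x, σ x)).1` to cross it, blue the time `(w s(x, σ x)).2`.
-/

set_option autoImplicit false

open MeasureTheory ProbabilityTheory Filter Topology
open scoped ENNReal

namespace Pool.Agent.Helper20.CP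

/-! ## The model -/

open Classical in
/-- The pairings of a finite set of half-edges: involutions without fixed points. -/
noncomputable def pairings (X : Type) [Fintype X] : Finset (Equiv.Perm X) :=
  Finset.univ.filter fun σ => (∀ x, σ (σ x) = x) ∧ ∀ x, σ x ≠ x

/-- The mean over a uniform pairing. -/
noncomputable def avg {X : Type} [Fintype X] (F : Equiv.Perm X → ℝ≥0∞) : ℝ≥0∞ :=
  (∑ σ ∈ pairings X, F σ) / ((pairings X).card : ℝ≥0∞)

open Classical in
/-- The indicator of a proposition. -/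
noncomputable def ind (p : Prop) : ℝ≥0∞ := if p then 1 else 0

/-- One half-edge is added to the last vertex if the sum of the degrees is odd. -/
def fixDeg {n : ℕ} (d : Fin n → ℕ) : Fin n → ℕ := fun v =>
  if v.val + 1 = n ∧ Odd (∑ u, d u) then d v + 1 else d v

/-- The half-edges: `d v` of them at the vertex `v`. -/
abbrev HE {n : ℕ} (d : Fin n → ℕ) : Type := Σ v : Fin n, Fin (d v)

/-- The law of the passage times: independent, with law `ρ`, one pair of times
(red time, blue time) for each unordered pair of half-edges. -/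
noncomputable def WM {X : Type} [Fintype X] [DecidableEq X] (ρ : Measure (ℝ × ℝ)) :
    Measure (Sym2 X → ℝ × ℝ) := Measure.pi fun _ => ρ

/-- `(t, red, blue)` is the result of the competition started from the red source `r` and the blue
source `b`: `t v` is the time at which `v` is painted (`⊤` if it is never painted), `red` and `blue`
are the sets of the vertices painted red and blue. If both colours reach a vertex at the same time,
the coin of that vertex decides. -/
structure Outcome {X V : Type} (vt : X → V) (σ : Equiv.Perm X) (w : Sym2 X → ℝ × ℝ)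
    (coin : V → Bool) (r b : V) (t : V → ℝ≥0∞) (red blue : Set V) : Prop where
  disj : Disjoint red blue
  fin : ∀ v, v ∈ red ∪ blue ↔ t v ≠ ⊤
  srcr : t r = 0
  srcb : t b = 0
  src : r ≠ b → r ∈ red ∧ b ∈ blue
  -- a painted vertex passes its colour on along all its edges
  passR : ∀ x, vt x ∈ red → t (vt (σ x)) ≤ t (vt x) + ENNReal.ofReal (w s(x, σ x)).1
  passB : ∀ x, vt x ∈ blue → t (vt (σ x)) ≤ t (vt x) + ENNReal.ofReal (w s(x, σ x)).2
  -- a vertex which is not a source gets its colour from a neighbour of that colour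
  fromR : ∀ v ∈ red, v ≠ r → v ≠ b →
    ∃ x, vt x ∈ red ∧ vt (σ x) = v ∧ t v = t (vt x) + ENNReal.ofReal (w s(x, σ x)).1
  fromB : ∀ v ∈ blue, v ≠ r → v ≠ b →
    ∃ x, vt x ∈ blue ∧ vt (σ x) = v ∧ t v = t (vt x) + ENNReal.ofReal (w s(x, σ x)).2
  -- ties
  tie : ∀ v, v ≠ r → v ≠ b →
    (∃ x, vt x ∈ red ∧ vt (σ x) = v ∧ t v = t (vt x) + ENNReal.ofReal (w s(x, σ x)).1) →
    (∃ x, vt x ∈ blue ∧ vt (σ x) = v ∧ t v = t (vt x) + ENNReal.ofReal (w s(x, σ x)).2) →
    (v ∈ red ↔ coin v = true)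

/-- The probability (outer probability, if the set is not measurable) of `E d σ w r b`, where the
degrees are `fixDeg d`, `d` independent with law `ν`, `σ` is a uniform pairing of the half-edges,
`w` the passage times (independent with law `ρ`), `r` and `b` are independent uniform vertices. -/
noncomputable def Pr (ν : Measure ℕ) (ρ : Measure (ℝ × ℝ)) (n : ℕ)
    (E : (d : Fin n → ℕ) → Equiv.Perm (HE d) → (Sym2 (HE d) → ℝ × ℝ) → Fin n → Fin n → Prop) :
    ℝ≥0∞ :=
  ∫⁻ d, avg (fun σ : Equiv.Perm (HE (fixDeg d)) =>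
    (∑ r : Fin n, ∑ b : Fin n, WM ρ {w | E (fixDeg d) σ w r b}) / ((n : ℝ≥0∞) * n))
      ∂(Measure.pi fun _ : Fin n => ν)

/-! ## Walks and paths -/

/-- There is a walk with `k` edges from `u` to `v`. -/
def Reach {X V : Type} (vt : X → V) (σ : Equiv.Perm X) : ℕ → V → V → Prop
  | 0, u, v => u = v
  | k + 1, u, v => ∃ x, vt x = u ∧ Reach vt σ k (vt (σ x)) v

/-- There is a walk with `k` edges from `u` to `v` of total red length at most `m`. -/
def RedWalk {X V : Type} (vt : X → V) (σ : Equiv.Perm X) (w : Sym2 X → ℝ × ℝ) :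
    ℕ → ℝ → V → V → Prop
  | 0, m, u, v => u = v ∧ 0 ≤ m
  | k + 1, m, u, v => ∃ x, vt x = u ∧ RedWalk vt σ w k (m - (w s(x, σ x)).1) (vt (σ x)) v

/-- `π 0, ..., π k` are distinct vertices and consecutive ones are adjacent. -/
def Pth {X V : Type} (vt : X → V) (σ : Equiv.Perm X) (k : ℕ) (π : ℕ → V) : Prop :=
  (∀ i < k, ∃ x, vt x = π i ∧ vt (σ x) = π (i + 1)) ∧ ∀ i ≤ k, ∀ j ≤ k, π i = π j → i = j

open Classical in
/-- The degree. -/
noncomputable def dg {X V : Type} [Fintype X] (vt : X → V) (v : V) : ℕ :=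
  (Finset.univ.filter fun x => vt x = v).card

/-- The half-edges `h 0, g 0, h 1, g 1, ...` are distinct. -/
def DJ {X : Type} {k : ℕ} (h g : Fin k → X) : Prop :=
  Function.Injective h ∧ Function.Injective g ∧ ∀ i j, h i ≠ g j

open Classical in
/-- The involutions of `X` which move exactly the points of `S`. -/
noncomputable def invo {X : Type} [Fintype X] (S : Finset X) : Finset (Equiv.Perm X) :=
  Finset.univ.filter fun σ => (∀ x, σ (σ x) = x) ∧ ∀ x, σ x ≠ x ↔ x ∈ S

/-- The ray: `e`, `nx (σ e)`, `nx (σ (nx (σ e)))`, ... -/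
def ray {X : Type} (nx σ : Equiv.Perm X) (e : X) (i : ℕ) : X := (fun x => nx (σ x))^[i] e

/-- There is a path of `j` edges with passage times in `Ch` from `v = π 0` through
`π i ∈ Wn i`. -/
def Climb {X V : Type} (vt : X → V) (σ : Equiv.Perm X) (w : Sym2 X → ℝ × ℝ) (Ch : Set (ℝ × ℝ))
    (Wn : ℕ → Finset V) (j : ℕ) (v : V) : Prop :=
  ∃ π : ℕ → V, π 0 = v ∧ (∀ i ≤ j, π i ∈ Wn i) ∧ (∀ i ≤ j, ∀ l ≤ j, π i = π l → i = l) ∧
    ∀ i < j, ∃ x, vt x = π i ∧ vt (σ x) = π (i + 1) ∧ w s(x, σ x) ∈ Ch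

/-! ## Degree sequences -/

/-- `log log n / |log a|` -/
noncomputable def LL (a : ℝ) (n : ℕ) : ℝ := Real.log (Real.log n) / |Real.log a|

open Classical in
/-- Regularity used for the lower bound of the distances. -/
structure RegB {V : Type} [Fintype V] (D : V → ℕ) (b0 γ s a : ℝ) : Prop where
  two : ∀ v, 2 ≤ D v
  tail : ∀ i : ℕ, (∑ v ∈ Finset.univ.filter (fun v => b0 ^ (γ ^ i : ℝ) < (D v : ℝ)), (D v : ℝ)) ≤
    Fintype.card V * b0 ^ (γ ^ i * (s - a) : ℝ)
  sq : ∀ i : ℕ, (∑ v ∈ Finset.univ.filter (fun v => (D v : ℝ) ≤ b0 ^ (γ ^ i : ℝ)), (D v : ℝ) ^ 2) ≤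
    Fintype.card V * b0 ^ (γ ^ i * (1 - a + s) : ℝ)

/-- number of levels -/
noncomputable def Jn (α κ K : ℝ) (n : ℕ) : ℕ :=
  ⌊Real.log (α * Real.log n / Real.log K) / Real.log κ⌋₊

/-- The levels `y 0 < y 1 < ... < y J = n ^ α`, `y (j + 1) = (y j) ^ κ`. -/
noncomputable def yl (α κ K : ℝ) (n j : ℕ) : ℝ := (n : ℝ) ^ (α * κ ^ ((j : ℝ) - Jn α κ K n))

open Classical in
/-- The vertices with degree in `(y j, (y j) ^ 2]`. -/
noncomputable def Win {V : Type} [Fintype V] (D : V → ℕ) (α κ K : ℝ) (j : ℕ) : Finset V :=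
  Finset.univ.filter fun v => yl α κ K (Fintype.card V) j < (D v : ℝ) ∧
    (D v : ℝ) ≤ yl α κ K (Fintype.card V) j ^ 2

/-- Regularity used for the upper bound of the red distances. -/
structure RegC {V : Type} [Fintype V] (D : V → ℕ) (a A c2 α κ K : ℝ) : Prop where
  two : ∀ v, 2 ≤ D v
  sum : (∑ v, (D v : ℝ)) ≤ A * Fintype.card V
  win : ∀ j ≤ Jn α κ K (Fintype.card V),
    c2 * Fintype.card V * yl α κ K (Fintype.card V) j ^ (-(1 + a)) ≤ ((Win D α κ K j).card : ℝ)

end Pool.Agent.Helper20.CP
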