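import Pool.Agent.Helper20.CP.Spec

/-!
# CP, part MAIN: the theorem from the two distance bounds
-/

set_option autoImplicit false

open MeasureTheory ProbabilityTheory Filter Topology
open scoped ENNReal

namespace Pool.Agent.Helper20.CP.MAIN

open Pool.Agent.Helper20.CP

/-! ## Means -/

lemma avg_mono {X : Type} [Fintype X] {F G : Equiv.Perm X → ℝ≥0∞}
    (h : ∀ σ ∈ pairings X, F σ ≤ G σ) : avg F ≤ avg G := by
  unfold avg
  exact ENNReal.div_le_div_right (Finset.sum_le_sum h) _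

lemma avg_add {X : Type} [Fintype X] (F G : Equiv.Perm X → ℝ≥0∞) :
    avg (fun σ => F σ + G σ) = avg F + avg G := by
  unfold avg
  rw [Finset.sum_add_distrib, ENNReal.add_div]

lemma avg_mul {X : Type} [Fintype X] (c : ℝ≥0∞) (F : Equiv.Perm X → ℝ≥0∞) :
    avg (fun σ => c * F σ) = c * avg F := by
  unfold avg
  rw [← Finset.mul_sum, mul_div_assoc]

lemma avg_div {X : Type} [Fintype X] (c : ℝ≥0∞) (F : Equiv.Perm X → ℝ≥0∞) :
    avg (fun σ => F σ / c) = avg F / c := by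
  simp only [div_eq_mul_inv]
  simp only [mul_comm _ c⁻¹]
  exact avg_mul _ _

lemma avg_le_one {X : Type} [Fintype X] {F : Equiv.Perm X → ℝ≥0∞}
    (h : ∀ σ ∈ pairings X, F σ ≤ 1) : avg F ≤ 1 := by
  unfold avg
  calc (∑ σ ∈ pairings X, F σ) / ((pairings X).card : ℝ≥0∞)
      ≤ (∑ σ ∈ pairings X, 1) / ((pairings X).card : ℝ≥0∞) :=
        ENNReal.div_le_div_right (Finset.sum_le_sum h) _
    _ ≤ 1 := by
        rw [Finset.sum_const, nsmul_eq_mul, mul_one]
        exact ENNReal.div_self_le_one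

lemma invol {X : Type} [Fintype X] {σ : Equiv.Perm X} (h : σ ∈ pairings X) :
    ∀ x, σ (σ x) = x := by
  classical
  unfold pairings at h
  simp only [Finset.mem_filter] at h
  exact h.2.1

/-! ## Half-edges -/

lemma dg_fst {n : ℕ} (d : Fin n → ℕ) : dg (Sigma.fst : HE d → Fin n) = d := by
  classical
  funext v
  unfold dg
  have : (Finset.univ.filter fun x : HE d => x.1 = v) =
      (Finset.univ : Finset (Fin (d v))).map ⟨fun i => (⟨v, i⟩ : HE d), fun i j h => by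
        simpa using h⟩ := by
    ext ⟨u, i⟩
    simp only [Finset.mem_filter, Finset.mem_univ, true_and, Finset.mem_map]
    constructor
    · rintro rfl
      exact ⟨i, rfl⟩
    · rintro ⟨j, hj⟩
      exact (congrArg Sigma.fst hj).symm
  have h1 := congrArg Finset.card this
  rw [Finset.card_map, Finset.card_univ, Fintype.card_fin] at h1
  convert h1

/-- the next half-edge at the same vertex -/
noncomputable def nxt {n : ℕ} (d : Fin n → ℕ) : Equiv.Perm (HE d) :=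
  Equiv.sigmaCongrRight fun v => finRotate (d v)

lemma nxt_fst {n : ℕ} (d : Fin n → ℕ) (x : HE d) : (nxt d x).1 = x.1 := rfl

lemma finRotate_ne {k : ℕ} (hk : 2 ≤ k) (i : Fin k) : finRotate k i ≠ i := by
  obtain ⟨m, rfl⟩ : ∃ m, k = m + 2 := ⟨k - 2, by omega⟩
  rw [finRotate_apply]
  intro h
  simp at h

lemma nxt_ne {n : ℕ} {d : Fin n → ℕ} (hd : ∀ v, 2 ≤ d v) (x : HE d) : nxt d x ≠ x := by
  obtain ⟨v, i⟩ := x
  intro h
  have h2 : (⟨v, finRotate (d v) i⟩ : HE d) = ⟨v, i⟩ := h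
  have := eq_of_heq (Sigma.mk.inj h2).2
  exact finRotate_ne (hd v) i this

/-! ## The deterministic part, for fixed degrees and pairing -/

lemma ind_true {p : Prop} (h : p) : ind p = 1 := by unfold ind; simp [h]

lemma null_weights {X : Type} [Fintype X] [DecidableEq X] (ρ : Measure (ℝ × ℝ))
    [IsProbabilityMeasure ρ] (c0 c1 : ℝ) (h1 : ρ {p | p.1 < c0} = 0) (h2 : ρ {p | p.2 < c1} = 0) :
    (WM ρ : Measure (Sym2 X → ℝ × ℝ)) {w | ¬ ((∀ p, c0 ≤ (w p).1) ∧ ∀ p, c1 ≤ (w p).2)} = 0 := by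
  have hsub : {w : Sym2 X → ℝ × ℝ | ¬ ((∀ p, c0 ≤ (w p).1) ∧ ∀ p, c1 ≤ (w p).2)} ⊆
      ⋃ p : Sym2 X, (Function.eval p ⁻¹' {q : ℝ × ℝ | q.1 < c0} ∪
        Function.eval p ⁻¹' {q : ℝ × ℝ | q.2 < c1}) := by
    intro w hw
    simp only [Set.mem_ofPred_eq, not_and_or, not_forall, not_le] at hw
    rcases hw with ⟨p, hp⟩ | ⟨p, hp⟩
    · exact Set.mem_iUnion.mpr ⟨p, Or.inl hp⟩
    · exact Set.mem_iUnion.mpr ⟨p, Or.inr hp⟩
  refine measure_mono_null hsub (measure_iUnion_null fun p => measure_union_null ?_ ?_)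
  · exact Measure.pi_eval_preimage_null _ h1
  · exact Measure.pi_eval_preimage_null _ h2

open Classical in
lemma key (hA : S_A) (hMark : S_MARK) {X : Type} [Fintype X] [DecidableEq X] {n : ℕ} (hn : 0 < n)
    (vt : X → Fin n) (σ : Equiv.Perm X) (hσ : ∀ x, σ (σ x) = x) (ρ : Measure (ℝ × ℝ))
    [IsProbabilityMeasure ρ] (c0 lam δ M h : ℝ) (hc0 : 0 < c0) (hlam : 1 < lam) (hδ : 0 < δ)
    (h1 : ρ {p | p.1 < c0} = 0) (h2 : ρ {p | p.2 < lam * c0} = 0)
    (hM : M * (lam + 1) ≤ 2 * lam * c0 * h) (hh : 0 ≤ h) (r b : Fin n) :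
    (WM ρ : Measure (Sym2 X → ℝ × ℝ)) {w | ∃ (coin : Fin n → Bool) (t : Fin n → ℝ≥0∞)
        (red blue : Set (Fin n)), Outcome vt σ w coin r b t red blue ∧
          δ * n < ((Finset.univ.filter fun v => v ∉ red).card : ℝ)} ≤
      (∑ v, (ind (∃ k : ℕ, (k : ℝ) ≤ h ∧ Reach vt σ k r b) +
        ind (∃ k : ℕ, (k : ℝ) ≤ h ∧ Reach vt σ k b v) +
        (WM ρ : Measure (Sym2 X → ℝ × ℝ)) {w | ¬ ∃ k, RedWalk vt σ w k M r v})) /
          ENNReal.ofReal (δ * n) := by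
  set P1 : Prop := ∃ k : ℕ, (k : ℝ) ≤ h ∧ Reach vt σ k r b with hP1
  set P2 : Fin n → Prop := fun v => ∃ k : ℕ, (k : ℝ) ≤ h ∧ Reach vt σ k b v with hP2
  set F : Fin n → Set (Sym2 X → ℝ × ℝ) := fun v =>
    {w | P1 ∨ P2 v ∨ ¬ ∃ k, RedWalk vt σ w k M r v} with hF
  have hn' : (0 : ℝ) < δ * n := by
    have : (0 : ℝ) < n := by exact_mod_cast hn
    positivity
  have hsub : {w : Sym2 X → ℝ × ℝ | ∃ (coin : Fin n → Bool) (t : Fin n → ℝ≥0∞)
        (red blue : Set (Fin n)), Outcome vt σ w coin r b t red blue ∧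
          δ * n < ((Finset.univ.filter fun v => v ∉ red).card : ℝ)} ⊆
      {w | ¬ ((∀ p, c0 ≤ (w p).1) ∧ ∀ p, lam * c0 ≤ (w p).2)} ∪
      {w | δ * n < ((Finset.univ.filter fun v => w ∈ F v).card : ℝ)} := by
    rintro w ⟨coin, t, red, blue, hO, hcard⟩
    by_cases hw : (∀ p, c0 ≤ (w p).1) ∧ ∀ p, lam * c0 ≤ (w p).2
    · right
      refine lt_of_lt_of_le hcard ?_
      have : (Finset.univ.filter fun v => v ∉ red) ⊆ (Finset.univ.filter fun v => w ∈ F v) := by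
        intro v hv
        simp only [Finset.mem_filter, Finset.mem_univ, true_and] at hv ⊢
        by_contra hcon
        simp only [hF, Set.mem_ofPred_eq, not_or, not_not] at hcon
        obtain ⟨hc1, hc2, hc3⟩ := hcon
        apply hv
        have hrb : r ≠ b := by
          rintro rfl
          exact hc1 ⟨0, by simpa using hh, rfl⟩
        refine hA X (Fin n) vt σ w coin r b v t red blue c0 lam M h hc0 hlam hσ hw.1 hw.2 hO hrb
          (fun k hk hr => hc1 ⟨k, hk, hr⟩) (fun k hk hr => hc2 ⟨k, hk, hr⟩) hc3 hM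
      exact_mod_cast Finset.card_le_card this
    · left
      exact hw
  refine (measure_mono hsub).trans ((measure_union_le _ _).trans ?_)
  rw [null_weights ρ c0 (lam * c0) h1 h2, zero_add]
  have hm := hMark _ _ (WM ρ) F (δ * n) hn'
  refine (le_trans (le_of_eq ?_) hm).trans ?_
  · congr!
  refine ENNReal.div_le_div_right (Finset.sum_le_sum fun v _ => ?_) _
  by_cases hp1 : P1
  · calc (WM ρ : Measure (Sym2 X → ℝ × ℝ)) (F v) ≤ 1 := by
          unfold WM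
          exact prob_le_one
      _ = ind P1 := (ind_true hp1).symm
      _ ≤ _ := by rw [add_assoc]; exact le_self_add
  by_cases hp2 : P2 v
  · calc (WM ρ : Measure (Sym2 X → ℝ × ℝ)) (F v) ≤ 1 := by
          unfold WM
          exact prob_le_one
      _ = ind (P2 v) := (ind_true hp2).symm
      _ ≤ _ := le_self_add.trans' (le_add_self)
  · have : F v = {w | ¬ ∃ k, RedWalk vt σ w k M r v} := by
      ext w
      simp only [hF, Set.mem_ofPred_eq, hp1, hp2, false_or]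
    rw [this]
    exact le_add_self

lemma sum3 {n : ℕ} (i : Fin n → Fin n → ℝ≥0∞) (q : Fin n → Fin n → ℝ≥0∞) :
    (∑ r, ∑ b, ∑ v, (i r b + i b v + q r v)) =
      (n : ℝ≥0∞) * ((∑ u, ∑ v, i u v) + (∑ u, ∑ v, i u v) + ∑ u, ∑ v, q u v) := by
  simp only [Finset.sum_add_distrib, Finset.sum_const, Finset.card_univ, Fintype.card_fin,
    nsmul_eq_mul, mul_add]
  congr 1
  · congr 1
    · simp only [Finset.mul_sum]
  · rw [Finset.mul_sum]

lemma pointwise (hA : S_A) (hMark : S_MARK) {X : Type} [Fintype X] [DecidableEq X] {n : ℕ}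
    (hn : 0 < n)
    (vt : X → Fin n) (σ : Equiv.Perm X) (hσ : ∀ x, σ (σ x) = x) (ρ : Measure (ℝ × ℝ))
    [IsProbabilityMeasure ρ] (c0 lam δ M h : ℝ) (hc0 : 0 < c0) (hlam : 1 < lam) (hδ : 0 < δ)
    (h1 : ρ {p | p.1 < c0} = 0) (h2 : ρ {p | p.2 < lam * c0} = 0)
    (hM : M * (lam + 1) ≤ 2 * lam * c0 * h) (hh : 0 ≤ h)
    (E : (Sym2 X → ℝ × ℝ) → Fin n → Fin n → Prop)
    (hE : ∀ w r b, E w r b → ∃ (coin : Fin n → Bool) (t : Fin n → ℝ≥0∞)
        (red blue : Set (Fin n)), Outcome vt σ w coin r b t red blue ∧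
          δ * n < (({v | v ∉ red} : Set (Fin n)).ncard : ℝ)) :
    (∑ r : Fin n, ∑ b : Fin n, (WM ρ : Measure (Sym2 X → ℝ × ℝ)) {w | E w r b}) /
        ((n : ℝ≥0∞) * n) ≤
      ((∑ u : Fin n, ∑ v : Fin n, ind (∃ k : ℕ, (k : ℝ) ≤ h ∧ Reach vt σ k u v)) /
          ((n : ℝ≥0∞) * n) +
        (∑ u : Fin n, ∑ v : Fin n, ind (∃ k : ℕ, (k : ℝ) ≤ h ∧ Reach vt σ k u v)) /
          ((n : ℝ≥0∞) * n) +
        (∑ u : Fin n, ∑ v : Fin n, (WM ρ : Measure (Sym2 X → ℝ × ℝ))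
          {w | ¬ ∃ k, RedWalk vt σ w k M u v}) / ((n : ℝ≥0∞) * n)) / ENNReal.ofReal δ := by
  classical
  have hn0 : (n : ℝ≥0∞) ≠ 0 := by exact_mod_cast hn.ne'
  have hnt : (n : ℝ≥0∞) ≠ ⊤ := ENNReal.natCast_ne_top n
  have hofr : ENNReal.ofReal (δ * n) = ENNReal.ofReal δ * n := by
    rw [ENNReal.ofReal_mul hδ.le, ENNReal.ofReal_natCast]
  have hb : (∑ r : Fin n, ∑ b : Fin n, (WM ρ : Measure (Sym2 X → ℝ × ℝ)) {w | E w r b}) ≤
      ((n : ℝ≥0∞) * ((∑ u : Fin n, ∑ v : Fin n, ind (∃ k : ℕ, (k : ℝ) ≤ h ∧ Reach vt σ k u v)) +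
        (∑ u : Fin n, ∑ v : Fin n, ind (∃ k : ℕ, (k : ℝ) ≤ h ∧ Reach vt σ k u v)) +
        ∑ u : Fin n, ∑ v : Fin n, (WM ρ : Measure (Sym2 X → ℝ × ℝ))
          {w | ¬ ∃ k, RedWalk vt σ w k M u v})) / ENNReal.ofReal (δ * n) := by
    rw [← sum3 (fun u v => ind (∃ k : ℕ, (k : ℝ) ≤ h ∧ Reach vt σ k u v))]
    simp only [div_eq_mul_inv, Finset.sum_mul]
    refine Finset.sum_le_sum fun r _ => Finset.sum_le_sum fun b _ => ?_
    have hk := key hA hMark hn vt σ hσ ρ c0 lam δ M h hc0 hlam hδ h1 h2 hM hh r b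
    rw [div_eq_mul_inv, Finset.sum_mul] at hk
    refine le_trans (measure_mono ?_) hk
    intro w hw
    obtain ⟨coin, t, red, blue, hO, hc⟩ := hE w r b hw
    refine ⟨coin, t, red, blue, hO, ?_⟩
    rw [Set.ncard_eq_toFinset_card'] at hc
    convert hc using 3
    ext v
    simp
  refine (ENNReal.div_le_div_right hb _).trans (le_of_eq ?_)
  rw [hofr]
  set I := ∑ u : Fin n, ∑ v : Fin n, ind (∃ k : ℕ, (k : ℝ) ≤ h ∧ Reach vt σ k u v)
  set Q := ∑ u : Fin n, ∑ v : Fin n, (WM ρ : Measure (Sym2 X → ℝ × ℝ))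
          {w | ¬ ∃ k, RedWalk vt σ w k M u v}
  have e1 : ENNReal.ofReal δ ≠ 0 := by
    simpa using hδ
  have e2 : ENNReal.ofReal δ ≠ ⊤ := ENNReal.ofReal_ne_top
  rw [← ENNReal.add_div, ← ENNReal.add_div, mul_comm (ENNReal.ofReal δ) (n : ℝ≥0∞),
    ENNReal.mul_div_mul_left _ _ hn0 hnt]
  simp only [div_eq_mul_inv]
  ring

/-! ## Assembly -/

lemma inner_le_one {n : ℕ} (d : Fin n → ℕ) (ρ : Measure (ℝ × ℝ)) [IsProbabilityMeasure ρ]
    (E : Equiv.Perm (HE d) → (Sym2 (HE d) → ℝ × ℝ) → Fin n → Fin n → Prop) :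
    avg (fun σ : Equiv.Perm (HE d) =>
      (∑ r : Fin n, ∑ b : Fin n, (WM ρ : Measure (Sym2 (HE d) → ℝ × ℝ)) {w | E σ w r b}) /
        ((n : ℝ≥0∞) * n)) ≤ 1 := by
  refine avg_le_one fun σ _ => ?_
  have : (∑ r : Fin n, ∑ b : Fin n, (WM ρ : Measure (Sym2 (HE d) → ℝ × ℝ)) {w | E σ w r b}) ≤
      (n : ℝ≥0∞) * n := by
    calc _ ≤ ∑ r : Fin n, ∑ b : Fin n, (1 : ℝ≥0∞) := by
          refine Finset.sum_le_sum fun r _ => Finset.sum_le_sum fun b _ => ?_
          unfold WM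
          exact prob_le_one
      _ = (n : ℝ≥0∞) * n := by simp
  refine (ENNReal.div_le_div_right this _).trans ENNReal.div_self_le_one

theorem main (hA : S_A) (hMark : S_MARK) (hB : S_B) (hBN : S_BNUM) (hRB : S_REGB)
    (hCL : S_CLIM) (hRC : S_REGC) : S_MAIN := by
  classical
  intro ν _ a c1 C1 ha0 ha1 hc1 hν2 hlow hup ρ _ c0 lam hc0 hlam h1 h2 hη δ hδ
  obtain ⟨e, he0, he1, hcond⟩ : ∃ e : ℝ, 0 < e ∧ e < 1 ∧
      (1 + e) * (lam + 1) ≤ 2 * lam * (1 - e) := by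
    have hpos : 0 < 3 * lam + 1 := by linarith
    refine ⟨(lam - 1) / (3 * lam + 1), div_pos (by linarith) hpos, ?_, ?_⟩
    · rw [div_lt_one hpos]; linarith
    · have hx : (lam - 1) / (3 * lam + 1) * (3 * lam + 1) = lam - 1 := by
        field_simp
      nlinarith [hx]
  obtain ⟨γ, s, hγ, hs0, hsa, hgs, hBNe⟩ := hBN a e ha0 ha1 he0 he1
  obtain ⟨α, κ, hα0, hαa, hκ, hC⟩ := hCL a c0 e ha0 ha1 hc0 he0
  replace hC := hC ρ hη
  obtain ⟨c2, K1, hc2, hRC'⟩ := hRC ν a c1 C1 ha0 ha1 hc1 hν2 hlow hup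
  rw [ENNReal.tendsto_atTop_zero]
  intro ε hε
  obtain ⟨ε', hε'0, hε'⟩ : ∃ ε' : ℝ, 0 < ε' ∧ ENNReal.ofReal ε' ≤ ε := by
    obtain ⟨r, hr0, hr⟩ := ENNReal.lt_iff_exists_nnreal_btwn.mp hε
    refine ⟨r, by exact_mod_cast hr0, ?_⟩
    rw [ENNReal.ofReal_coe_nnreal]
    exact hr.le
  have ht1 : 0 < ε' / 4 := by positivity
  have ht2 : 0 < ε' * δ / 12 := by positivity
  obtain ⟨A, hA0, hRCA⟩ := hRC' (ε' / 4) ht1
  obtain ⟨K0, hK0⟩ := hC A c2 (ε' * δ / 12) hA0 hc2 ht2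
  obtain ⟨N1, hN1⟩ := hK0 (max K0 K1) (le_max_left _ _)
  obtain ⟨N2, hN2⟩ := hRCA α κ hα0 hαa hκ (max K0 K1) (le_max_right _ _)
  obtain ⟨B, hB1, hBB⟩ := hBNe (ε' * δ / 12) ht2
  obtain ⟨B', hB'⟩ := hRB ν a C1 ha0 ha1 hν2 hup γ s hγ hs0 hsa (ε' / 4) ht1
  obtain ⟨N3, hN3⟩ := hBB (max B B') (le_max_left _ _)
  replace hB' := hB' (max B B') (le_max_right _ _)
  have hb0 : 1 < max B B' := lt_of_lt_of_le hB1 (le_max_left _ _)
  set b0 := max B B' with hb0def
  set K := max K0 K1 with hKdef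
  refine ⟨max 1 (max N1 (max N2 N3)), fun n hn => ?_⟩
  have hn1 : 1 ≤ n := le_trans (le_max_left _ _) hn
  have hnN1 : N1 ≤ n := le_trans ((le_max_left _ _).trans (le_max_right _ _)) hn
  have hnN2 : N2 ≤ n := le_trans ((le_max_left _ _).trans ((le_max_right _ _).trans
    (le_max_right _ _))) hn
  have hnN3 : N3 ≤ n := le_trans ((le_max_right _ _).trans ((le_max_right _ _).trans
    (le_max_right _ _))) hn
  obtain ⟨hh0, hhn, hbB⟩ := hN3 n hnN3
  replace hB' := hB' n hn1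
  replace hN2 := hN2 n hnN2
  set h : ℝ := 2 * (1 - e) * LL a n with hh
  set M : ℝ := 2 * (1 + e) * c0 * LL a n with hMdef
  have hL : 0 ≤ LL a n := by
    by_contra hneg
    push Not at hneg
    have : h < 0 := by
      rw [hh]
      have : 0 < 2 * (1 - e) := by linarith
      exact mul_neg_of_pos_of_neg this hneg
    linarith
  have hM : M * (lam + 1) ≤ 2 * lam * c0 * h := by
    have : M * (lam + 1) = 2 * c0 * LL a n * ((1 + e) * (lam + 1)) := by rw [hMdef]; ring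
    rw [this]
    have h3 : 2 * lam * c0 * h = 2 * c0 * LL a n * (2 * lam * (1 - e)) := by rw [hh]; ring
    rw [h3]
    exact mul_le_mul_of_nonneg_left hcond (by positivity)
  set Bad : Set (Fin n → ℕ) := {d | ¬ RegB (fixDeg d) b0 γ s a} ∪
    {d | ¬ RegC (fixDeg d) a A c2 α κ K} with hBad
  have hBadm : MeasurableSet Bad := (Set.to_countable Bad).measurableSet
  have hmain : ∀ d : Fin n → ℕ, avg (fun σ : Equiv.Perm (HE (fixDeg d)) =>
      (∑ r : Fin n, ∑ b : Fin n, (WM ρ : Measure (Sym2 (HE (fixDeg d)) → ℝ × ℝ))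
        {w | ∃ (coin : Fin n → Bool) (t : Fin n → ℝ≥0∞) (red blue : Set (Fin n)),
        Outcome Sigma.fst σ w coin r b t red blue ∧
          δ * n < ((Finset.univ.filter fun v => v ∉ red).card : ℝ)}) / ((n : ℝ≥0∞) * n)) ≤
      Bad.indicator 1 d + ENNReal.ofReal (ε' / 4) := by
    intro d
    by_cases hd : d ∈ Bad
    · rw [Set.indicator_of_mem hd]
      exact (inner_le_one (fixDeg d) ρ _).trans le_self_add
    · rw [Set.indicator_of_notMem hd, zero_add]
      simp only [hBad, Set.mem_union, Set.mem_ofPred_eq, not_or, not_not] at hd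
      obtain ⟨hdB, hdC⟩ := hd
      have hdg : dg (Sigma.fst : HE (fixDeg d) → Fin n) = fixDeg d := dg_fst _
      have i1 := hB (HE (fixDeg d)) (Fin n) Sigma.fst b0 γ s a h hb0 hγ hs0 hsa ha1 hgs
        (by rw [hdg]; exact hdB) hh0 (by rw [Fintype.card_fin]; exact hhn)
      rw [Fintype.card_fin] at i1
      have i2 := hN1 n hnN1 (HE (fixDeg d)) (Fin n) Sigma.fst (nxt (fixDeg d))
        (fun v => ⟨v, ⟨0, by have := hdC.two v; omega⟩⟩) (nxt_ne hdC.two)
        (fun x => nxt_fst _ x) (fun v => rfl) (Fintype.card_fin n) (by rw [hdg]; exact hdC)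
      rw [Fintype.card_fin] at i2
      have i3 : avg (fun σ : Equiv.Perm (HE (fixDeg d)) =>
          (∑ r : Fin n, ∑ b : Fin n, (WM ρ : Measure (Sym2 (HE (fixDeg d)) → ℝ × ℝ))
            {w | ∃ (coin : Fin n → Bool) (t : Fin n → ℝ≥0∞) (red blue : Set (Fin n)),
            Outcome Sigma.fst σ w coin r b t red blue ∧
              δ * n < ((Finset.univ.filter fun v => v ∉ red).card : ℝ)}) / ((n : ℝ≥0∞) * n)) ≤
          (avg (fun σ : Equiv.Perm (HE (fixDeg d)) =>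
            (∑ u : Fin n, ∑ v : Fin n, ind (∃ k : ℕ, (k : ℝ) ≤ h ∧ Reach Sigma.fst σ k u v)) /
              ((n : ℝ≥0∞) * n)) +
          avg (fun σ : Equiv.Perm (HE (fixDeg d)) =>
            (∑ u : Fin n, ∑ v : Fin n, ind (∃ k : ℕ, (k : ℝ) ≤ h ∧ Reach Sigma.fst σ k u v)) /
              ((n : ℝ≥0∞) * n)) +
          avg (fun σ : Equiv.Perm (HE (fixDeg d)) =>
            (∑ u : Fin n, ∑ v : Fin n, (WM ρ : Measure (Sym2 (HE (fixDeg d)) → ℝ × ℝ))
              {w | ¬ ∃ k, RedWalk Sigma.fst σ w k M u v}) / ((n : ℝ≥0∞) * n))) /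
            ENNReal.ofReal δ := by
        rw [← avg_add, ← avg_add, ← avg_div]
        refine avg_mono fun σ hσ => ?_
        have hinv : ∀ x, σ (σ x) = x := invol hσ
        refine pointwise hA hMark (by omega) Sigma.fst σ hinv ρ c0 lam δ M h hc0 hlam hδ h1 h2 hM
          hh0 _ ?_
        rintro w r b ⟨coin, t, red, blue, hO, hc⟩
        refine ⟨coin, t, red, blue, hO, ?_⟩
        rw [Set.ncard_eq_toFinset_card']
        convert hc using 3
        ext v
        simp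
      refine i3.trans ?_
      calc _ ≤ (ENNReal.ofReal (ε' * δ / 12) + ENNReal.ofReal (ε' * δ / 12) +
            ENNReal.ofReal (ε' * δ / 12)) / ENNReal.ofReal δ := by
            refine ENNReal.div_le_div_right (add_le_add (add_le_add ?_ ?_) i2) _
            · exact i1.trans (ENNReal.ofReal_le_ofReal hbB)
            · exact i1.trans (ENNReal.ofReal_le_ofReal hbB)
        _ = ENNReal.ofReal (ε' / 4) := by
            rw [← ENNReal.ofReal_add ht2.le ht2.le, ← ENNReal.ofReal_add (by linarith) ht2.le,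
              ← ENNReal.ofReal_div_of_pos hδ]
            congr 1
            field_simp
            ring
  calc Pr ν ρ n _ ≤ ∫⁻ d, (Bad.indicator 1 d + ENNReal.ofReal (ε' / 4))
        ∂(Measure.pi fun _ : Fin n => ν) := by
        unfold Pr
        exact lintegral_mono hmain
    _ = (Measure.pi fun _ : Fin n => ν) Bad + ENNReal.ofReal (ε' / 4) := by
        rw [lintegral_add_right _ measurable_const, lintegral_indicator_one hBadm,
          lintegral_const, measure_univ, mul_one]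
    _ ≤ (ENNReal.ofReal (ε' / 4) + ENNReal.ofReal (ε' / 4)) + ENNReal.ofReal (ε' / 4) := by
        gcongr
        exact (measure_union_le _ _).trans (add_le_add hB' hN2)
    _ ≤ ENNReal.ofReal ε' := by
        rw [← ENNReal.ofReal_add ht1.le ht1.le, ← ENNReal.ofReal_add (by linarith) ht1.le]
        exact ENNReal.ofReal_le_ofReal (by linarith)
    _ ≤ ε := hε'

end Pool.Agent.Helper20.CP.MAIN
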