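import Pool.Agent.Helper20.CP.Defs

/-!
# CP: statements of the parts

Blueprint: `team-store get CP_BLUEPRINT.md`. Nothing is proved here.
-/

set_option autoImplicit false

open MeasureTheory ProbabilityTheory Filter Topology
open scoped ENNReal

namespace Pool.Agent.Helper20.CP

/-! ## P. Uniform pairings -/

/-- P1a. Sum over the pairings of `S`, by the partner `x` of `h`. -/
def S_STEP : Prop := ∀ (X : Type) [Fintype X] [DecidableEq X] (S : Finset X) (h : X), h ∈ S →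
  ∀ (M : Type) [AddCommMonoid M] (F : Equiv.Perm X → M),
    ∑ σ ∈ invo S, F σ = ∑ x ∈ S.erase h, ∑ σ ∈ invo ((S.erase h).erase x), F (Equiv.swap h x * σ)

/-- P1b. Number of pairings. -/
def S_CARD : Prop := ∀ (X : Type) [Fintype X] [DecidableEq X] (S : Finset X),
  (Even S.card → (invo S).card = Nat.doubleFactorial (S.card - 1)) ∧
  (¬ Even S.card → (invo S).card = 0) ∧ invo (Finset.univ : Finset X) = pairings X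

/-- P2. The partners in `T` of the elements of `A`. -/
def S_M2 : Prop := ∀ (X : Type) [Fintype X] [DecidableEq X] (S A T : Finset X), A ⊆ S → T ⊆ S →
  Disjoint A T → A.card ≤ T.card → ∀ p : ℝ, 0 ≤ p → p ≤ 1 →
    ∑ σ ∈ invo S, (1 - p) ^ (A.filter fun x => σ x ∈ T).card ≤
      (invo S).card * Real.exp (-(p * A.card * (T.card - A.card) / (2 * S.card)))

/-- P3. Independence of the passage times of different edges. -/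
def S_M3 : Prop := ∀ (X : Type) [Fintype X] [DecidableEq X] (ρ : Measure (ℝ × ℝ))
  [IsProbabilityMeasure ρ] (Ch : Set (ℝ × ℝ)), MeasurableSet Ch → ∀ p : ℝ, 0 ≤ p → p ≤ 1 →
  ENNReal.ofReal p ≤ ρ Ch → ∀ σ ∈ pairings X, ∀ A T : Finset X, Disjoint A T →
    WM ρ {w | ∀ x ∈ A, σ x ∈ T → w s(x, σ x) ∉ Ch} ≤
      ENNReal.ofReal ((1 - p) ^ (A.filter fun x => σ x ∈ T).card)

open Classical in
/-- P4. Pairings which contain the disjoint pairs `{h i, g i}` and no edge from `A` to `T` with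
passage time in `Ch`. (`A = T = ∅`: number of pairings which contain the pairs.) -/
def S_M4 : Prop := ∀ (X : Type) [Fintype X] [DecidableEq X] (ρ : Measure (ℝ × ℝ))
  [IsProbabilityMeasure ρ] (Ch : Set (ℝ × ℝ)), MeasurableSet Ch → ∀ p : ℝ, 0 ≤ p → p ≤ 1 →
  ENNReal.ofReal p ≤ ρ Ch → ∀ (k : ℕ) (h g : Fin k → X), DJ h g → 2 * k < Fintype.card X →
  ∀ A T : Finset X, Disjoint A T → (∀ i, h i ∉ A ∧ h i ∉ T ∧ g i ∉ A ∧ g i ∉ T) →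
  A.card ≤ T.card →
    ∑ σ ∈ (pairings X).filter (fun σ => ∀ i, σ (h i) = g i),
        WM ρ {w | ∀ x ∈ A, σ x ∈ T → w s(x, σ x) ∉ Ch} ≤
      (pairings X).card *
        ENNReal.ofReal ((∏ r ∈ Finset.range k, ((Fintype.card X : ℝ) - 2 * r - 1))⁻¹ *
          Real.exp (-(p * A.card * (T.card - A.card) / (2 * Fintype.card X))))

/-! ## F. First moment bounds for paths -/

open Classical in
/-- F1. Expected number of paths with prescribed classes of vertices. -/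
def S_FM : Prop := ∀ (X V : Type) [Fintype X] [DecidableEq X] (vt : X → V) (u : V) (k : ℕ)
  (C : ℕ → Finset V), 2 * (k + 1) < Fintype.card X →
    avg (fun σ : Equiv.Perm X => ind (∃ π : ℕ → V, π 0 = u ∧ Pth vt σ (k + 1) π ∧
        ∀ i, 1 ≤ i → i ≤ k + 1 → π i ∈ C i)) ≤
      ENNReal.ofReal ((dg vt u : ℝ) *
        (∏ i ∈ Finset.range k, ∑ v ∈ C (i + 1), (dg vt v : ℝ) ^ 2) *
        (∑ v ∈ C (k + 1), (dg vt v : ℝ)) /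
        ∏ r ∈ Finset.range (k + 1), ((Fintype.card X : ℝ) - 2 * r - 1))

/-- F2. Expected number of paths whose last vertex has no cheap edge to a new vertex of `Cn`. -/
def S_CL : Prop := ∀ (X V : Type) [Fintype X] [DecidableEq X] [DecidableEq V] (vt : X → V)
  (ρ : Measure (ℝ × ℝ)) [IsProbabilityMeasure ρ] (Ch : Set (ℝ × ℝ)), MeasurableSet Ch →
  ∀ p : ℝ, 0 ≤ p → p ≤ 1 → ENNReal.ofReal p ≤ ρ Ch →
  ∀ (u : V) (k m t : ℕ) (C : ℕ → Finset V) (Cn : Finset V) (hi : ℕ → ℝ), 2 * k < Fintype.card X →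
  (∀ i < k, ∀ v ∈ C i, (dg vt v : ℝ) ≤ hi i) → (∀ i < k, 0 ≤ hi i) → u ∈ C 0 →
  (∀ v ∈ C k, m + 1 ≤ dg vt v) →
  (∀ U : Finset V, U.card ≤ k + 1 → t ≤ ∑ v ∈ Cn \ U, dg vt v) → 2 * m ≤ t →
    avg (fun σ : Equiv.Perm X => WM ρ {w | ∃ π : ℕ → V, π 0 = u ∧ Pth vt σ k π ∧
        (∀ i ≤ k, π i ∈ C i) ∧ ∀ x, vt x = π k → vt (σ x) ∈ Cn → (∀ i ≤ k, vt (σ x) ≠ π i) →
          w s(x, σ x) ∉ Ch}) ≤
      ENNReal.ofReal ((∏ r ∈ Finset.range k,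
          (hi r * Fintype.card X / ((Fintype.card X : ℝ) - 2 * r - 1))) *
        Real.exp (-(p * m * t / (4 * Fintype.card X))))

/-- F3. Shortest walks are paths; reversal. -/
def S_SP : Prop := ∀ (X V : Type) (vt : X → V) (σ : Equiv.Perm X),
  (∀ (k : ℕ) (u v : V), Reach vt σ k u v → ∃ k' ≤ k, ∃ π : ℕ → V, π 0 = u ∧ π k' = v ∧
    Pth vt σ k' π) ∧
  ((∀ x, σ (σ x) = x) → ∀ (k : ℕ) (π : ℕ → V), Pth vt σ k π → Pth vt σ k fun i => π (k - i))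

/-! ## A. The competition -/

/-- A1. If the distances (number of edges) from `r` to `b` and from `b` to `v` are larger than `h`
and the red distance from `r` to `v` is at most `M`, then `v` is painted red. -/
def S_A : Prop := ∀ (X V : Type) (vt : X → V) (σ : Equiv.Perm X) (w : Sym2 X → ℝ × ℝ)
  (coin : V → Bool) (r b v : V) (t : V → ℝ≥0∞) (red blue : Set V) (c lam M h : ℝ), 0 < c →
  1 < lam → (∀ x, σ (σ x) = x) → (∀ p, c ≤ (w p).1) → (∀ p, lam * c ≤ (w p).2) →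
  Outcome vt σ w coin r b t red blue → r ≠ b →
  (∀ k : ℕ, (k : ℝ) ≤ h → ¬ Reach vt σ k r b) → (∀ k : ℕ, (k : ℝ) ≤ h → ¬ Reach vt σ k b v) →
  (∃ k, RedWalk vt σ w k M r v) → M * (lam + 1) ≤ 2 * lam * c * h → v ∈ red

/-- A2. The competition has an outcome (finite graph, positive passage times). -/
def S_EX : Prop := ∀ (X V : Type) [Fintype X] [Fintype V] (vt : X → V) (σ : Equiv.Perm X)
  (w : Sym2 X → ℝ × ℝ) (coin : V → Bool) (r b : V), (∀ x, σ (σ x) = x) → (∀ p, 0 < (w p).1) →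
  (∀ p, 0 < (w p).2) → ∃ (t : V → ℝ≥0∞) (red blue : Set V), Outcome vt σ w coin r b t red blue

open Classical in
/-- A3. Markov's inequality for a number of (arbitrary) sets. -/
def S_MARK : Prop := ∀ (Ω V : Type) [MeasurableSpace Ω] [Fintype V] (μ : Measure Ω)
  (F : V → Set Ω) (a : ℝ), 0 < a →
    μ {ω | a < ((Finset.univ.filter fun v => ω ∈ F v).card : ℝ)} ≤ (∑ v, μ (F v)) / ENNReal.ofReal a

/-! ## B. Lower bound of the distances -/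

open Classical in
/-- B1. Paths which violate the degree bounds for the first time at step `i`. -/
def S_BBAD : Prop := ∀ (X V : Type) [Fintype X] [DecidableEq X] [Fintype V] (vt : X → V)
  (b0 γ s a : ℝ), 1 < b0 → 1 < γ → 0 < s → s < a → a < 1 → 1 < (a - s) * γ →
  RegB (dg vt) b0 γ s a → ∀ u : V, (dg vt u : ℝ) ≤ b0 → ∀ i : ℕ, 1 ≤ i → 2 * i ≤ Fintype.card V →
    avg (fun σ : Equiv.Perm X => ind (∃ π : ℕ → V, π 0 = u ∧ Pth vt σ i π ∧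
        (∀ j, 1 ≤ j → j < i → (dg vt (π j) : ℝ) ≤ b0 ^ (γ ^ j : ℝ)) ∧
        b0 ^ (γ ^ i : ℝ) < (dg vt (π i) : ℝ))) ≤
      ENNReal.ofReal (b0 ^ (-(((a - s) * γ - 1) / (γ - 1)) * (γ ^ i - 1) : ℝ))

open Classical in
/-- B2. Paths which satisfy the degree bounds. -/
def S_BGOOD : Prop := ∀ (X V : Type) [Fintype X] [DecidableEq X] [Fintype V] (vt : X → V)
  (b0 γ s a : ℝ), 1 < b0 → 1 < γ → 0 < s → s < a → a < 1 →
  RegB (dg vt) b0 γ s a → ∀ u v : V, (dg vt u : ℝ) ≤ b0 → (dg vt v : ℝ) ≤ b0 →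
  ∀ k : ℕ, 1 ≤ k → 2 * k ≤ Fintype.card V →
    avg (fun σ : Equiv.Perm X => ind (∃ π : ℕ → V, π 0 = u ∧ π k = v ∧ Pth vt σ k π ∧
        ∀ j, 1 ≤ j → j < k → (dg vt (π j) : ℝ) ≤ b0 ^ (γ ^ (min j (k - j)) : ℝ))) ≤
      ENNReal.ofReal (b0 ^ 2 / Fintype.card V *
        b0 ^ (2 * (1 - a + s) * γ ^ (k / 2 + 1) / (γ - 1) : ℝ))

/-- the bound for the probability that the distance is at most `h` -/
noncomputable def bB (b0 γ s a h : ℝ) (n : ℕ) : ℝ :=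
  1 / n + 2 * b0 ^ (s - a) +
    2 * ∑ i ∈ Finset.range ⌊h⌋₊, b0 ^ (-(((a - s) * γ - 1) / (γ - 1)) * (γ ^ (i + 1) - 1) : ℝ) +
    ⌊h⌋₊ * (b0 ^ 2 / n * b0 ^ (2 * (1 - a + s) * γ ^ (⌊h⌋₊ / 2 + 1) / (γ - 1) : ℝ))

open Classical in
/-- B3. Two uniform vertices have distance `> h`. -/
def S_B : Prop := ∀ (X V : Type) [Fintype X] [DecidableEq X] [Fintype V] (vt : X → V)
  (b0 γ s a h : ℝ), 1 < b0 → 1 < γ → 0 < s → s < a → a < 1 → 1 < (a - s) * γ →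
  RegB (dg vt) b0 γ s a → 0 ≤ h → 2 * h ≤ Fintype.card V →
    avg (fun σ : Equiv.Perm X => (∑ u : V, ∑ v : V,
        ind (∃ k : ℕ, (k : ℝ) ≤ h ∧ Reach vt σ k u v)) /
          ((Fintype.card V : ℝ≥0∞) * Fintype.card V)) ≤
      ENNReal.ofReal (bB b0 γ s a h (Fintype.card V))

/-- B4. Numbers. -/
def S_BNUM : Prop := ∀ a δ : ℝ, 0 < a → a < 1 → 0 < δ → δ < 1 → ∃ γ s : ℝ, 1 < γ ∧ 0 < s ∧ s < a ∧
  1 < (a - s) * γ ∧ ∀ ε : ℝ, 0 < ε → ∃ B : ℝ, 1 < B ∧ ∀ b0 ≥ B, ∃ N : ℕ, ∀ n ≥ N,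
    0 ≤ 2 * (1 - δ) * LL a n ∧ 2 * (2 * (1 - δ) * LL a n) ≤ n ∧
      bB b0 γ s a (2 * (1 - δ) * LL a n) n ≤ ε

/-- B5. Independent degrees are regular. -/
def S_REGB : Prop := ∀ (ν : Measure ℕ) [IsProbabilityMeasure ν] (a C1 : ℝ), 0 < a → a < 1 →
  ν {k | k < 2} = 0 →
  (∀ x : ℝ, 1 ≤ x → ν {k : ℕ | x < (k : ℝ)} ≤ ENNReal.ofReal (C1 / x ^ (1 + a))) →
  ∀ γ s : ℝ, 1 < γ → 0 < s → s < a → ∀ ε : ℝ, 0 < ε → ∃ B : ℝ, ∀ b0 ≥ B, ∀ n : ℕ, 1 ≤ n →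
    (Measure.pi fun _ : Fin n => ν) {d | ¬ RegB (fixDeg d) b0 γ s a} ≤ ENNReal.ofReal ε

/-! ## C. Upper bound of the red distances -/

open Classical in
/-- C1. The ray hits a given set of half-edges. -/
def S_RAY : Prop := ∀ (X : Type) [Fintype X] [DecidableEq X] (nx : Equiv.Perm X),
  (∀ x, nx x ≠ x) → ∀ W : Finset X, (∀ x, nx x ∈ W ↔ x ∈ W) → ∀ (e : X) (R : ℕ),
  2 * R + 1 < Fintype.card X → 2 * R + 1 ≤ W.card →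
    avg (fun σ : Equiv.Perm X => ind (∀ i, 1 ≤ i → i ≤ R → ray nx σ e i ∉ W)) ≤
      ENNReal.ofReal ((1 - ((W.card : ℝ) - 2 * R - 1) / Fintype.card X) ^ R +
        R * (2 * R + 1) / ((Fintype.card X : ℝ) - 2 * R - 1))

/-- C2. Climbing. -/
def S_CLIMB : Prop := ∀ (X V : Type) [Fintype X] [DecidableEq X] [DecidableEq V] (vt : X → V)
  (ρ : Measure (ℝ × ℝ)) [IsProbabilityMeasure ρ] (Ch : Set (ℝ × ℝ)), MeasurableSet Ch →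
  ∀ p : ℝ, 0 ≤ p → p ≤ 1 → ENNReal.ofReal p ≤ ρ Ch →
  ∀ (Wn : ℕ → Finset V) (J : ℕ) (hi : ℕ → ℝ) (m t : ℕ → ℕ), 2 * J < Fintype.card X →
  (∀ i < J, ∀ v ∈ Wn i, (dg vt v : ℝ) ≤ hi i) → (∀ i < J, 0 ≤ hi i) →
  (∀ j < J, ∀ v ∈ Wn j, m j + 1 ≤ dg vt v) →
  (∀ j < J, ∀ U : Finset V, U.card ≤ j + 1 → t j ≤ ∑ v ∈ Wn (j + 1) \ U, dg vt v) →
  (∀ j < J, 2 * m j ≤ t j) → ∀ v ∈ Wn 0,
    avg (fun σ : Equiv.Perm X => WM ρ {w | ¬ Climb vt σ w Ch Wn J v}) ≤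
      ENNReal.ofReal (∑ j ∈ Finset.range J, (∏ r ∈ Finset.range j,
          (hi r * Fintype.card X / ((Fintype.card X : ℝ) - 2 * r - 1))) *
        Real.exp (-(p * m j * t j / (4 * Fintype.card X))))

/-- C3. The vertices of large degree are pairwise joined by cheap edges. -/
def S_HUB : Prop := ∀ (X V : Type) [Fintype X] [DecidableEq X] (vt : X → V)
  (ρ : Measure (ℝ × ℝ)) [IsProbabilityMeasure ρ] (Ch : Set (ℝ × ℝ)), MeasurableSet Ch →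
  ∀ p : ℝ, 0 ≤ p → p ≤ 1 → ENNReal.ofReal p ≤ ρ Ch →
  ∀ (Hb : Finset V) (m : ℕ), (∀ v ∈ Hb, 2 * m ≤ dg vt v) → 0 < Fintype.card X →
    avg (fun σ : Equiv.Perm X => WM ρ {w | ∃ u ∈ Hb, ∃ v ∈ Hb, u ≠ v ∧
        ∀ x, vt x = u → vt (σ x) = v → w s(x, σ x) ∉ Ch}) ≤
      ENNReal.ofReal ((Hb.card : ℝ) ^ 2 * Real.exp (-(p * m ^ 2 / (2 * Fintype.card X))))

open Classical in
/-- C4. Combination: ray, climb, edge between the two top vertices, and back. -/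
def S_C : Prop := ∀ (X V : Type) [Fintype X] [DecidableEq X] [Fintype V] (vt : X → V)
  (nx : Equiv.Perm X) (fs : V → X), (∀ x, vt (nx x) = vt x) → (∀ v, vt (fs v) = v) →
  ∀ (ρ : Measure (ℝ × ℝ)) [IsProbabilityMeasure ρ] (a1 a2 : ℝ), 0 ≤ a1 → 0 ≤ a2 →
  ∀ (R J : ℕ) (Wn : ℕ → Finset V) (rb db hb eb : ℝ≥0∞),
  (∀ u, avg (fun σ : Equiv.Perm X =>
    ind (∀ i, 1 ≤ i → i ≤ R → vt (ray nx σ (fs u) i) ∉ Wn 0)) ≤ rb) →
  (∀ v ∈ Wn 0, avg (fun σ : Equiv.Perm X =>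
    WM ρ {w | ¬ Climb vt σ w {p | p.1 ≤ a2} Wn J v}) ≤ db) →
  avg (fun σ : Equiv.Perm X => WM ρ {w | ∃ u ∈ Wn J, ∃ v ∈ Wn J, u ≠ v ∧
    ∀ x, vt x = u → vt (σ x) = v → w s(x, σ x) ∉ {p : ℝ × ℝ | p.1 ≤ a2}}) ≤ hb →
  ρ {p | a1 < p.1} ≤ eb →
    avg (fun σ : Equiv.Perm X => (∑ u : V, ∑ v : V,
        WM ρ {w | ¬ ∃ k, RedWalk vt σ w k (2 * R * a1 + (2 * J + 1) * a2) u v}) /
          ((Fintype.card V : ℝ≥0∞) * Fintype.card V)) ≤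
      2 * (rb + R * eb + (R + 1) * ((∑ v ∈ Wn 0, (dg vt v : ℝ≥0∞)) / Fintype.card V) * db) + hb

/-- C5. The levels. -/
def S_LEV : Prop := ∀ α κ K : ℝ, 0 < α → α ≤ 1 → 1 < κ → Real.exp 1 ≤ K → ∃ N : ℕ, ∀ n ≥ N,
  K ≤ yl α κ K n 0 ∧ yl α κ K n 0 ≤ K ^ κ ∧
  (∀ j < Jn α κ K n, yl α κ K n (j + 1) = yl α κ K n j ^ κ) ∧
  yl α κ K n (Jn α κ K n) = (n : ℝ) ^ α ∧
  (∀ j ≤ Jn α κ K n, yl α κ K n j ≤ (n : ℝ) ^ α ∧ K ^ (κ ^ j : ℝ) ≤ yl α κ K n j) ∧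
  (Jn α κ K n : ℝ) ≤ Real.log (Real.log n) / Real.log κ

/-- C6. Numbers for the climb. -/
def S_CN1 : Prop := ∀ (a α κ p A c2 : ℝ), 0 < a → a < 1 → 1 / 2 < α → α * (1 + a) < 1 → 1 < κ →
  a * κ < 1 → 0 < p → p ≤ 1 → 0 < A → 0 < c2 → ∃ K0 : ℝ, ∀ K ≥ K0, ∃ N : ℕ, ∀ n ≥ N,
  ∀ (X V : Type) [Fintype X] [DecidableEq X] [Fintype V] [DecidableEq V] (vt : X → V),
  Fintype.card V = n → RegC (dg vt) a A c2 α κ K →
  ∀ (ρ : Measure (ℝ × ℝ)) [IsProbabilityMeasure ρ] (Ch : Set (ℝ × ℝ)), MeasurableSet Ch →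
  ENNReal.ofReal p ≤ ρ Ch → ∀ v ∈ Win (dg vt) α κ K 0,
    avg (fun σ : Equiv.Perm X => WM ρ {w | ¬ Climb vt σ w Ch (Win (dg vt) α κ K)
      (Jn α κ K n) v}) ≤ ENNReal.ofReal (K ^ (-(2 * κ)))

/-- C7. Numbers for the ray and the top vertices. -/
def S_CN2 : Prop := ∀ (a α κ p A c2 : ℝ), 0 < a → a < 1 → 1 / 2 < α → α * (1 + a) < 1 → 1 < κ →
  a * κ < 1 → 0 < p → p ≤ 1 → 0 < A → 0 < c2 → ∀ ε : ℝ, 0 < ε → ∃ K0 : ℝ, ∀ K ≥ K0,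
  ((⌈K ^ κ⌉₊ : ℝ) + 1) * A * K ^ (-(2 * κ)) ≤ ε ∧ ∃ N : ℕ, ∀ n ≥ N,
  ∀ (X V : Type) [Fintype X] [DecidableEq X] [Fintype V] (vt : X → V),
  Fintype.card V = n → RegC (dg vt) a A c2 α κ K →
  (∀ nx : Equiv.Perm X, (∀ x, nx x ≠ x) → (∀ x, vt (nx x) = vt x) → ∀ e : X,
    avg (fun σ : Equiv.Perm X => ind (∀ i, 1 ≤ i → i ≤ ⌈K ^ κ⌉₊ →
      vt (ray nx σ e i) ∉ Win (dg vt) α κ K 0)) ≤ ENNReal.ofReal ε) ∧
  ∀ (ρ : Measure (ℝ × ℝ)) [IsProbabilityMeasure ρ] (Ch : Set (ℝ × ℝ)), MeasurableSet Ch →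
  ENNReal.ofReal p ≤ ρ Ch →
    avg (fun σ : Equiv.Perm X => WM ρ {w | ∃ u ∈ Win (dg vt) α κ K (Jn α κ K n),
      ∃ v ∈ Win (dg vt) α κ K (Jn α κ K n), u ≠ v ∧
        ∀ x, vt x = u → vt (σ x) = v → w s(x, σ x) ∉ Ch}) ≤ ENNReal.ofReal ε

/-- C8. Choice of the exponents, and the length of the walk. -/
def S_CN3 : Prop := ∀ a c0 εr : ℝ, 0 < a → a < 1 → 0 < c0 → 0 < εr →
  ∃ α κ η : ℝ, 1 / 2 < α ∧ α ≤ 1 ∧ α * (1 + a) < 1 ∧ 1 < κ ∧ a * κ < 1 ∧ 0 < η ∧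
    ∀ (K a1 : ℝ) (R : ℕ), Real.exp 1 ≤ K → 0 ≤ a1 → ∃ N : ℕ, ∀ n ≥ N,
      2 * R * a1 + (2 * (Jn α κ K n : ℝ) + 1) * (c0 + η) ≤ 2 * (1 + εr) * c0 * LL a n

/-- C9. Independent degrees are regular. -/
def S_REGC : Prop := ∀ (ν : Measure ℕ) [IsProbabilityMeasure ν] (a c1 C1 : ℝ), 0 < a → a < 1 →
  0 < c1 → ν {k | k < 2} = 0 →
  (∀ x : ℝ, 1 ≤ x → ENNReal.ofReal (c1 / x ^ (1 + a)) ≤ ν {k : ℕ | x < (k : ℝ)}) →
  (∀ x : ℝ, 1 ≤ x → ν {k : ℕ | x < (k : ℝ)} ≤ ENNReal.ofReal (C1 / x ^ (1 + a))) →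
  ∃ c2 K1 : ℝ, 0 < c2 ∧ ∀ ε : ℝ, 0 < ε → ∃ A : ℝ, 0 < A ∧ ∀ α κ : ℝ, 0 < α → α * (1 + a) < 1 →
    1 < κ → ∀ K ≥ K1, ∃ N : ℕ, ∀ n ≥ N,
      (Measure.pi fun _ : Fin n => ν) {d | ¬ RegC (fixDeg d) a A c2 α κ K} ≤ ENNReal.ofReal ε

/-! ## Z. Assembly -/

open Classical in
/-- Z1. Upper bound of the red distances on regular degree sequences. -/
def S_CLIM : Prop := ∀ a c0 εr : ℝ, 0 < a → a < 1 → 0 < c0 → 0 < εr →
  ∃ α κ : ℝ, 0 < α ∧ α * (1 + a) < 1 ∧ 1 < κ ∧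
  ∀ (ρ : Measure (ℝ × ℝ)) [IsProbabilityMeasure ρ], (∀ η : ℝ, 0 < η → ρ {p | p.1 ≤ c0 + η} ≠ 0) →
  ∀ A c2 ε : ℝ, 0 < A → 0 < c2 → 0 < ε → ∃ K0 : ℝ, ∀ K ≥ K0, ∃ N : ℕ, ∀ n ≥ N,
  ∀ (X V : Type) [Fintype X] [DecidableEq X] [Fintype V] (vt : X → V) (nx : Equiv.Perm X)
    (fs : V → X), (∀ x, nx x ≠ x) → (∀ x, vt (nx x) = vt x) → (∀ v, vt (fs v) = v) →
  Fintype.card V = n → RegC (dg vt) a A c2 α κ K →
    avg (fun σ : Equiv.Perm X => (∑ u : V, ∑ v : V,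
        WM ρ {w | ¬ ∃ k, RedWalk vt σ w k (2 * (1 + εr) * c0 * LL a n) u v}) /
          ((Fintype.card V : ℝ≥0∞) * Fintype.card V)) ≤ ENNReal.ofReal ε

open Classical in
/-- Z2. The theorem, for passage times `≥ c0` (red) and `≥ lam * c0` (blue), where `c0` is the
essential infimum of the red times. -/
def S_MAIN : Prop := ∀ (ν : Measure ℕ) [IsProbabilityMeasure ν] (a c1 C1 : ℝ), 0 < a → a < 1 →
  0 < c1 → ν {k | k < 2} = 0 →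
  (∀ x : ℝ, 1 ≤ x → ENNReal.ofReal (c1 / x ^ (1 + a)) ≤ ν {k : ℕ | x < (k : ℝ)}) →
  (∀ x : ℝ, 1 ≤ x → ν {k : ℕ | x < (k : ℝ)} ≤ ENNReal.ofReal (C1 / x ^ (1 + a))) →
  ∀ (ρ : Measure (ℝ × ℝ)) [IsProbabilityMeasure ρ] (c0 lam : ℝ), 0 < c0 → 1 < lam →
  ρ {p | p.1 < c0} = 0 → ρ {p | p.2 < lam * c0} = 0 → (∀ η : ℝ, 0 < η → ρ {p | p.1 ≤ c0 + η} ≠ 0) →
  ∀ δ : ℝ, 0 < δ → Tendsto (fun n : ℕ => Pr ν ρ n fun _ σ w r b =>
      ∃ (coin : Fin n → Bool) (t : Fin n → ℝ≥0∞) (red blue : Set (Fin n)),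
        Outcome Sigma.fst σ w coin r b t red blue ∧
          δ * n < ((Finset.univ.filter fun v => v ∉ red).card : ℝ)) atTop (𝓝 0)

/-- Z3. Reduction of the laws of the problem to `S_MAIN`: the essential infimum. -/
def S_ESS : Prop := ∀ (μ : Measure ℝ) [IsProbabilityMeasure μ] (c lam : ℝ), 0 < c → 1 < lam →
  μ (Set.Iio 0) = 0 → ∀ (ρ : Measure (ℝ × ℝ)) [IsProbabilityMeasure ρ],
  ρ.map Prod.fst = μ.map (fun x => c + x) → ρ.map Prod.snd = μ.map (fun x => lam * (c + x)) →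
  ∃ c0 : ℝ, 0 < c0 ∧ ρ {p | p.1 < c0} = 0 ∧ ρ {p | p.2 < lam * c0} = 0 ∧
    ∀ η : ℝ, 0 < η → ρ {p | p.1 ≤ c0 + η} ≠ 0

/-- Z4. `Pr` is a probability. -/
def S_ONE : Prop := ∀ (ν : Measure ℕ) [IsProbabilityMeasure ν] (ρ : Measure (ℝ × ℝ))
  [IsProbabilityMeasure ρ] (n : ℕ), 1 ≤ n → Pr ν ρ n (fun _ _ _ _ _ => True) = 1

end Pool.Agent.Helper20.CP
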